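import Mathlib

/-!
Finite inequalities for products of integers: a Rankin bound for the number of integers with many
prime factors in a given set, the number of ordered factorizations, and the resulting lower
bound for `k`-fold product sets.
-/

namespace Pool.Agent.R95.SP
open Finset

/-- number of prime factors in `W`, with multiplicity -/
def Om (W : Finset ℕ) (a : ℕ) : ℕ := ∑ p ∈ W, a.factorization p

theorem rankin (W : Finset ℕ) (hW : ∀ p ∈ W, p.Prime) (y : ℝ) (hy : 1 ≤ y)
    (hyW : ∀ p ∈ W, 2 * y ≤ p) :
    ∀ N R : ℕ, (((Icc 1 N).filter fun a => R ≤ Om W a).card : ℝ) * y ^ R ≤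
      N * ∏ p ∈ W, (1 - y / p)⁻¹ := by
  classical
  induction W using Finset.induction_on with
  | empty =>
    intro N R
    rw [prod_empty, mul_one]
    rcases Nat.eq_zero_or_pos R with rfl | hR
    · have h1 : ((Icc 1 N).filter fun a => 0 ≤ Om ∅ a).card ≤ N := by
        refine (card_filter_le _ _).trans ?_
        simp
      rw [pow_zero, mul_one]
      exact_mod_cast h1
    · have : ((Icc 1 N).filter fun a => R ≤ Om ∅ a) = ∅ := by
        apply filter_eq_empty_iff.2
        intro a _
        have h0 : Om ∅ a = 0 := by simp [Om]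
        omega
      rw [this]
      simp
  | insert p W hp ih =>
    intro N R
    have ih' := ih (fun q hq => hW q (mem_insert_of_mem hq))
      (fun q hq => hyW q (mem_insert_of_mem hq))
    have hpp : p.Prime := hW p (mem_insert_self _ _)
    have hpy : 2 * y ≤ p := hyW p (mem_insert_self _ _)
    have hp0 : (0 : ℝ) < p := by exact_mod_cast hpp.pos
    have hy0 : 0 < y := by linarith
    have hx0 : 0 ≤ y / p := by positivity
    have hx1 : y / p < 1 := by
      rw [div_lt_one hp0]
      linarith
    set PP : ℝ := ∏ q ∈ W, (1 - y / q)⁻¹ with hPP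
    have hPP0 : 0 ≤ PP := by
      apply prod_nonneg
      intro q hq
      apply inv_nonneg.2
      have h1 : 2 * y ≤ q := hyW q (mem_insert_of_mem hq)
      have h2 : (0 : ℝ) < q := by linarith
      have : y / q ≤ 1 := by
        rw [div_le_one h2]
        linarith
      linarith
    have hcard : ((Icc 1 N).filter fun a => R ≤ Om (insert p W) a).card ≤
        ∑ e ∈ range (N + 1), ((Icc 1 (N / p ^ e)).filter fun a => R - e ≤ Om W a).card := by
      have hsub : ((Icc 1 N).filter fun a => R ≤ Om (insert p W) a) ⊆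
          (range (N + 1)).biUnion fun e =>
            ((Icc 1 (N / p ^ e)).filter fun a => R - e ≤ Om W a).image fun b => p ^ e * b := by
        intro a ha
        rw [mem_filter, mem_Icc] at ha
        obtain ⟨⟨ha1, haN⟩, hR⟩ := ha
        rw [mem_biUnion]
        refine ⟨a.factorization p, ?_, ?_⟩
        · rw [mem_range]
          have := Nat.factorization_lt (n := a) p (by omega)
          omega
        · rw [mem_image]
          refine ⟨a / p ^ a.factorization p, ?_, Nat.ordProj_mul_ordCompl_eq_self a p⟩
          rw [mem_filter, mem_Icc]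
          refine ⟨⟨Nat.ordCompl_pos p (by omega), Nat.div_le_div_right haN⟩, ?_⟩
          have h1 : Om W (a / p ^ a.factorization p) = Om W a := by
            unfold Om
            apply sum_congr rfl
            intro q hq
            rw [Nat.factorization_ordCompl]
            rw [Finsupp.erase_ne]
            rintro rfl
            exact hp hq
          rw [h1]
          unfold Om at hR ⊢
          rw [sum_insert hp] at hR
          omega
      refine (card_le_card hsub).trans (card_biUnion_le.trans ?_)
      exact sum_le_sum fun e _ => card_image_le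
    have hstep : ∀ e ∈ range (N + 1),
        (((Icc 1 (N / p ^ e)).filter fun a => R - e ≤ Om W a).card : ℝ) * y ^ R ≤
          N * PP * (y / p) ^ e := by
      intro e _
      have h1 := ih' (N / p ^ e) (R - e)
      have h2 : y ^ R ≤ y ^ (R - e) * y ^ e := by
        rw [← pow_add]
        exact pow_le_pow_right₀ hy (by omega)
      have h3 : ((N / p ^ e : ℕ) : ℝ) ≤ N / (p : ℝ) ^ e := by
        have := @Nat.cast_div_le ℝ _ _ _ N (p ^ e)
        simpa using this
      calc (((Icc 1 (N / p ^ e)).filter fun a => R - e ≤ Om W a).card : ℝ) * y ^ R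
          ≤ (((Icc 1 (N / p ^ e)).filter fun a => R - e ≤ Om W a).card : ℝ) *
            (y ^ (R - e) * y ^ e) := by gcongr
        _ = ((((Icc 1 (N / p ^ e)).filter fun a => R - e ≤ Om W a).card : ℝ) *
            y ^ (R - e)) * y ^ e := by ring
        _ ≤ (((N / p ^ e : ℕ) : ℝ) * PP) * y ^ e := by gcongr
        _ ≤ (N / (p : ℝ) ^ e * PP) * y ^ e := by gcongr
        _ = N * PP * (y / p) ^ e := by
            rw [div_pow]
            ring
    have hgeo : ∑ e ∈ range (N + 1), (y / p) ^ e ≤ (1 - y / p)⁻¹ := by
      have := Summable.sum_le_tsum (range (N + 1)) (fun e _ => pow_nonneg hx0 e)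
        (summable_geometric_of_lt_one hx0 hx1)
      rwa [tsum_geometric_of_lt_one hx0 hx1] at this
    calc (((Icc 1 N).filter fun a => R ≤ Om (insert p W) a).card : ℝ) * y ^ R
        ≤ ((∑ e ∈ range (N + 1),
          ((Icc 1 (N / p ^ e)).filter fun a => R - e ≤ Om W a).card : ℕ) : ℝ) * y ^ R := by
          gcongr
      _ = ∑ e ∈ range (N + 1),
          (((Icc 1 (N / p ^ e)).filter fun a => R - e ≤ Om W a).card : ℝ) * y ^ R := by
          rw [Nat.cast_sum, sum_mul]
      _ ≤ ∑ e ∈ range (N + 1), N * PP * (y / p) ^ e := sum_le_sum hstep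
      _ = N * PP * ∑ e ∈ range (N + 1), (y / p) ^ e := by rw [mul_sum]
      _ ≤ N * PP * (1 - y / p)⁻¹ := by gcongr
      _ = N * ∏ q ∈ insert p W, (1 - y / q)⁻¹ := by
          rw [prod_insert hp]
          ring

theorem multichoose_le_pow (k v : ℕ) : Nat.multichoose k v ≤ k ^ v := by
  induction k generalizing v with
  | zero =>
    cases v with
    | zero => simp
    | succ v => simp
  | succ k ihk =>
    induction v with
    | zero => simp
    | succ v ihv =>
      rw [Nat.multichoose_succ_succ]
      have h1 := ihk (v + 1)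
      have h2 : k ^ (v + 1) ≤ k * (k + 1) ^ v := by
        rw [pow_succ']
        exact Nat.mul_le_mul_left _ (Nat.pow_le_pow_left (by omega) _)
      calc Nat.multichoose k (v + 1) + Nat.multichoose (k + 1) v
          ≤ k * (k + 1) ^ v + (k + 1) ^ v := by omega
        _ = (k + 1) ^ (v + 1) := by ring

theorem multichoose_le_pow' (k v : ℕ) : Nat.multichoose k v ≤ (v + 1) ^ k := by
  induction k generalizing v with
  | zero =>
    cases v with
    | zero => simp
    | succ v => simp
  | succ k ihk =>
    induction v with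
    | zero => simp
    | succ v ihv =>
      rw [Nat.multichoose_succ_succ]
      have h1 := ihk (v + 1)
      have h2 : (v + 1) ^ (k + 1) ≤ (v + 1) * (v + 2) ^ k := by
        rw [pow_succ']
        exact Nat.mul_le_mul_left _ (Nat.pow_le_pow_left (by omega) _)
      calc Nat.multichoose k (v + 1) + Nat.multichoose (k + 1) v
          ≤ (v + 1 + 1) ^ k + (v + 1) * (v + 2) ^ k := by omega
        _ = (v + 1 + 1) ^ (k + 1) := by ring

/-- The number of ordered factorizations of `m` into `k` factors. -/
theorem rep_le (k : ℕ) (S : Finset ℕ) (hS : ∀ a ∈ S, a ≠ 0) (m : ℕ) :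
    ((Fintype.piFinset fun _ : Fin k => S).filter fun f => ∏ i, f i = m).card ≤
      ∏ p ∈ m.primeFactors, Nat.multichoose k (m.factorization p) := by
  classical
  have hcard : (m.primeFactors.pi fun p =>
      (univ : Finset (Fin k)).finsuppAntidiag (m.factorization p)).card =
      ∏ p ∈ m.primeFactors, Nat.multichoose k (m.factorization p) := by
    rw [card_pi]
    apply prod_congr rfl
    intro p _
    rw [card_finsuppAntidiag_nat_eq_multichoose, card_univ, Fintype.card_fin]
  rw [← hcard]
  refine card_le_card_of_injOn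
    (fun f p _ => Finsupp.equivFunOnFinite.symm fun i => (f i).factorization p) ?_ ?_
  · intro f hf
    rw [mem_coe, mem_filter, Fintype.mem_piFinset] at hf
    obtain ⟨hf1, hf2⟩ := hf
    rw [mem_coe, mem_pi]
    intro p hp
    rw [mem_finsuppAntidiag]
    refine ⟨?_, subset_univ _⟩
    have h1 : m.factorization p = ∑ i, (f i).factorization p := by
      rw [← hf2, Nat.factorization_prod (fun i _ => hS _ (hf1 i))]
      simp
    rw [h1]
    rfl
  · intro f hf g hg hfg
    rw [mem_coe, mem_filter, Fintype.mem_piFinset] at hf hg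
    obtain ⟨hf1, hf2⟩ := hf
    obtain ⟨hg1, hg2⟩ := hg
    have hm : m ≠ 0 := by
      rw [← hf2]
      exact prod_ne_zero_iff.2 fun i _ => hS _ (hf1 i)
    funext i
    apply Nat.eq_of_factorization_eq (hS _ (hf1 i)) (hS _ (hg1 i))
    intro p
    by_cases hp : p ∈ m.primeFactors
    · have h1 := congrFun (congrFun hfg p) hp
      have h2 := DFunLike.congr_fun h1 i
      simpa using h2
    · have hfd : f i ∣ m := by
        rw [← hf2]
        exact dvd_prod_of_mem _ (mem_univ i)
      have hgd : g i ∣ m := by
        rw [← hg2]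
        exact dvd_prod_of_mem _ (mem_univ i)
      have h0 : m.factorization p = 0 := by
        rw [← Finsupp.notMem_support_iff, Nat.support_factorization]
        exact hp
      have h1 := (Nat.factorization_le_iff_dvd (hS _ (hf1 i)) hm).2 hfd p
      have h2 := (Nat.factorization_le_iff_dvd (hS _ (hg1 i)) hm).2 hgd p
      omega

/-- the primes in `(Z, B]` -/
def WW (Z B : ℕ) : Finset ℕ := (Ioc Z B).filter Nat.Prime

/-- Prime factors above `Z` are at most `Om (WW Z B)` plus the number of those above `B`. -/
theorem big_le (Z B N T a : ℕ) (hB : 1 ≤ B) (ha : a ≠ 0) (haN : a ≤ N)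
    (hT : N < (B + 1) ^ (T + 1)) :
    ∑ p ∈ a.primeFactors with Z < p, a.factorization p ≤ Om (WW Z B) a + T := by
  classical
  have h1 : ∑ p ∈ a.primeFactors with Z < p, a.factorization p =
      ∑ p ∈ a.primeFactors with (Z < p ∧ p ≤ B), a.factorization p +
      ∑ p ∈ a.primeFactors with (Z < p ∧ B < p), a.factorization p := by
    rw [← sum_filter_add_sum_filter_not (a.primeFactors.filter fun p => Z < p) (fun p => p ≤ B),
      filter_filter, filter_filter]
    simp only [not_le]
  have h2 : ∑ p ∈ a.primeFactors with (Z < p ∧ p ≤ B), a.factorization p ≤ Om (WW Z B) a := by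
    unfold Om WW
    apply sum_le_sum_of_subset
    intro p hp
    rw [mem_filter] at hp
    rw [mem_filter, mem_Ioc]
    exact ⟨hp.2, Nat.prime_of_mem_primeFactors hp.1⟩
  have h3 : (B + 1) ^ ∑ p ∈ a.primeFactors with (Z < p ∧ B < p), a.factorization p ≤ a := by
    calc (B + 1) ^ ∑ p ∈ a.primeFactors with (Z < p ∧ B < p), a.factorization p
        = ∏ p ∈ a.primeFactors with (Z < p ∧ B < p), (B + 1) ^ a.factorization p := by
          rw [prod_pow_eq_pow_sum]
      _ ≤ ∏ p ∈ a.primeFactors with (Z < p ∧ B < p), p ^ a.factorization p := by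
          apply prod_le_prod'
          intro p hp
          rw [mem_filter] at hp
          exact Nat.pow_le_pow_left (by omega) _
      _ ≤ ∏ p ∈ a.primeFactors, p ^ a.factorization p := by
          apply prod_le_prod_of_subset_of_one_le' (filter_subset _ _)
          intro p hp _
          exact Nat.one_le_pow _ _ (Nat.prime_of_mem_primeFactors hp).pos
      _ = a := by
          have := Nat.prod_factorization_pow_eq_self ha
          rw [Finsupp.prod, Nat.support_factorization] at this
          exact this
  have h4 : ∑ p ∈ a.primeFactors with (Z < p ∧ B < p), a.factorization p < T + 1 := by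
    by_contra hcon
    push Not at hcon
    have := Nat.pow_le_pow_right (n := B + 1) (by omega) hcon
    omega
  omega

/-- Bound for the number of ordered factorizations into elements with few large prime factors. -/
theorem rep_le2 (k Z B N R T : ℕ) (S : Finset ℕ) (hk : 1 ≤ k) (hB : 1 ≤ B)
    (hS : ∀ a ∈ S, a ≠ 0 ∧ a ≤ N ∧ Om (WW Z B) a ≤ R) (hT : N < (B + 1) ^ (T + 1)) (m : ℕ)
    (hm : m ∈ ((Fintype.piFinset fun _ : Fin k => S).image fun f => ∏ i, f i)) :
    ((Fintype.piFinset fun _ : Fin k => S).filter fun f => ∏ i, f i = m).card ≤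
      (Nat.log 2 (N ^ k) + 1) ^ (k * Z) * k ^ (k * (R + T)) := by
  classical
  refine (rep_le k S (fun a ha => (hS a ha).1) m).trans ?_
  rw [mem_image] at hm
  obtain ⟨f, hf, hfm⟩ := hm
  rw [Fintype.mem_piFinset] at hf
  have hm0 : m ≠ 0 := by
    rw [← hfm]
    exact prod_ne_zero_iff.2 fun i _ => (hS _ (hf i)).1
  have hmN : m ≤ N ^ k := by
    rw [← hfm]
    calc ∏ i, f i ≤ ∏ _i : Fin k, N := prod_le_prod' fun i _ => (hS _ (hf i)).2.1
      _ = N ^ k := by simp
  rw [← prod_filter_mul_prod_filter_not m.primeFactors (fun p => Z < p), mul_comm]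
  apply Nat.mul_le_mul
  · -- small primes
    have h1 : ∀ p ∈ m.primeFactors.filter (fun p => ¬ Z < p),
        Nat.multichoose k (m.factorization p) ≤ (Nat.log 2 (N ^ k) + 1) ^ k := by
      intro p hp
      rw [mem_filter] at hp
      have hpp := Nat.prime_of_mem_primeFactors hp.1
      refine (multichoose_le_pow' k _).trans (Nat.pow_le_pow_left ?_ _)
      have h2 : 2 ^ m.factorization p ≤ m := by
        calc 2 ^ m.factorization p ≤ p ^ m.factorization p :=
              Nat.pow_le_pow_left hpp.two_le _
          _ ≤ m := Nat.ordProj_le p hm0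
      have h3 : m.factorization p ≤ Nat.log 2 (N ^ k) :=
        Nat.le_log_of_pow_le (by norm_num) (h2.trans hmN)
      omega
    refine (prod_le_pow_card _ _ _ h1).trans ?_
    rw [← pow_mul]
    apply Nat.pow_le_pow_right (by omega)
    apply Nat.mul_le_mul_left
    have h4 : m.primeFactors.filter (fun p => ¬ Z < p) ⊆ Icc 1 Z := by
      intro p hp
      rw [mem_filter] at hp
      rw [mem_Icc]
      have := (Nat.prime_of_mem_primeFactors hp.1).pos
      omega
    have := card_le_card h4
    rwa [Nat.card_Icc, Nat.add_sub_cancel] at this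
  · -- large primes
    have h1 : ∏ p ∈ m.primeFactors.filter (fun p => Z < p),
        Nat.multichoose k (m.factorization p) ≤
        k ^ ∑ p ∈ m.primeFactors.filter (fun p => Z < p), m.factorization p := by
      rw [← prod_pow_eq_pow_sum]
      exact prod_le_prod' fun p _ => multichoose_le_pow k _
    refine h1.trans (Nat.pow_le_pow_right hk ?_)
    have h2 : ∑ p ∈ m.primeFactors.filter (fun p => Z < p), m.factorization p =
        ∑ i, ∑ p ∈ m.primeFactors.filter (fun p => Z < p), (f i).factorization p := by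
      rw [sum_comm]
      apply sum_congr rfl
      intro p _
      rw [← hfm, Nat.factorization_prod (fun i _ => (hS _ (hf i)).1)]
      simp
    rw [h2]
    have h3 : ∀ i : Fin k, ∑ p ∈ m.primeFactors.filter (fun p => Z < p), (f i).factorization p ≤
        R + T := by
      intro i
      have h4 := big_le Z B N T (f i) hB (hS _ (hf i)).1 (hS _ (hf i)).2.1 hT
      have h5 : ∑ p ∈ m.primeFactors.filter (fun p => Z < p), (f i).factorization p =
          ∑ p ∈ (f i).primeFactors with Z < p, (f i).factorization p := by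
        symm
        apply sum_subset
        · intro p hp
          rw [mem_filter] at hp ⊢
          refine ⟨?_, hp.2⟩
          apply Nat.primeFactors_mono _ hm0 hp.1
          rw [← hfm]
          exact dvd_prod_of_mem _ (mem_univ i)
        · intro p hp1 hp2
          rw [mem_filter] at hp1 hp2
          rw [← Finsupp.notMem_support_iff, Nat.support_factorization]
          intro h
          exact hp2 ⟨h, hp1.2⟩
      rw [h5]
      have := (hS _ (hf i)).2.2
      omega
    calc ∑ i, ∑ p ∈ m.primeFactors.filter (fun p => Z < p), (f i).factorization p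
        ≤ ∑ _i : Fin k, (R + T) := sum_le_sum fun i _ => h3 i
      _ = k * (R + T) := by simp

/-- `∏ (1 - y/p)⁻¹` over the primes of `(Z, B]`. -/
theorem prod_le (Z B : ℕ) (y : ℝ) (hy : 0 ≤ y) (hyZ : 2 * y ≤ Z + 1) :
    ∏ p ∈ WW Z B, (1 - y / p)⁻¹ ≤ Real.exp (2 * y * (1 + Real.log B)) := by
  have h1 : ∀ p ∈ WW Z B, (1 - y / (p : ℝ))⁻¹ ≤ Real.exp (2 * y * (p : ℝ)⁻¹) := by
    intro p hp
    unfold WW at hp
    rw [mem_filter, mem_Ioc] at hp
    have hp1 : (Z : ℝ) + 1 ≤ p := by exact_mod_cast hp.1.1
    have hp0 : (0 : ℝ) < p := by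
      have : (0 : ℝ) ≤ Z := Nat.cast_nonneg _
      linarith
    have hx : y / p ≤ 1 / 2 := by
      rw [div_le_iff₀ hp0]
      linarith
    have hx0 : 0 ≤ y / p := by positivity
    have hx1 : 0 < 1 - y / p := by linarith
    rw [inv_le_comm₀ hx1 (Real.exp_pos _), ← Real.exp_neg]
    set x := y / (p : ℝ) with hxd
    have h2 : 2 * y * (p : ℝ)⁻¹ = 2 * x := by
      rw [hxd]
      ring
    rw [h2]
    -- exp(-2x) ≤ 1 - x for 0 ≤ x ≤ 1/2
    have h3 : 1 + 2 * x + (2 * x) ^ 2 / 2 ≤ Real.exp (2 * x) :=
      Real.quadratic_le_exp_of_nonneg (by linarith)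
    rw [Real.exp_neg, inv_le_comm₀ (Real.exp_pos _) hx1]
    refine le_trans ?_ h3
    rw [inv_le_iff_one_le_mul₀ hx1]
    nlinarith [mul_nonneg hx0 hx0, mul_nonneg hx0 (by linarith : (0:ℝ) ≤ 1 / 2 - x),
      mul_nonneg (mul_nonneg hx0 hx0) (by linarith : (0:ℝ) ≤ 1 / 2 - x)]
  calc ∏ p ∈ WW Z B, (1 - y / p)⁻¹ ≤ ∏ p ∈ WW Z B, Real.exp (2 * y * (p : ℝ)⁻¹) := by
        apply prod_le_prod
        · intro p hp
          unfold WW at hp
          rw [mem_filter, mem_Ioc] at hp
          have hp1 : (Z : ℝ) + 1 ≤ p := by exact_mod_cast hp.1.1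
          have hp0 : (0 : ℝ) < p := by
            have : (0 : ℝ) ≤ Z := Nat.cast_nonneg _
            linarith
          apply inv_nonneg.2
          have : y / p ≤ 1 / 2 := by
            rw [div_le_iff₀ hp0]
            linarith
          linarith
        · exact h1
    _ = Real.exp (∑ p ∈ WW Z B, 2 * y * (p : ℝ)⁻¹) := (Real.exp_sum _ _).symm
    _ ≤ Real.exp (2 * y * (1 + Real.log B)) := by
        apply Real.exp_le_exp.2
        rw [← mul_sum]
        apply mul_le_mul_of_nonneg_left _ (by linarith)
        have h4 : ∑ p ∈ WW Z B, (p : ℝ)⁻¹ ≤ ∑ p ∈ Icc 1 B, (p : ℝ)⁻¹ := by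
          apply sum_le_sum_of_subset_of_nonneg
          · intro p hp
            unfold WW at hp
            rw [mem_filter, mem_Ioc] at hp
            rw [mem_Icc]
            exact ⟨hp.2.pos, hp.1.2⟩
          · intro p _ _
            positivity
        refine h4.trans ?_
        have h5 := harmonic_le_one_add_log B
        rw [harmonic_eq_sum_Icc] at h5
        push_cast at h5
        exact h5

/-- The finite lower bound for `|A^k|`, `A ⊆ [1, N]`. -/
theorem lower_fin (k Z B N R T : ℕ) (y : ℝ) (A : Finset ℕ) (hk : 1 ≤ k) (hB : 1 ≤ B)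
    (hy : 1 ≤ y) (hyZ : 2 * y ≤ Z + 1) (hA : ∀ a ∈ A, a ≠ 0 ∧ a ≤ N)
    (hT : N < (B + 1) ^ (T + 1)) (G : ℝ)
    (hG : N * Real.exp (2 * y * (1 + Real.log B)) ≤ G * y ^ R) (hGA : G ≤ A.card) :
    ((A.card : ℝ) - G) ^ k ≤ ((Nat.log 2 (N ^ k) + 1 : ℕ) : ℝ) ^ (k * Z) *
      (k : ℝ) ^ (k * (R + T)) *
      (((Fintype.piFinset fun _ : Fin k => A).image fun f => ∏ i, f i).card : ℝ) := by
  classical
  set A' := A.filter fun a => ¬ R ≤ Om (WW Z B) a with hA'
  have hy0 : 0 < y := by linarith
  have hyR : 0 < y ^ R := by positivity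
  have hbad : ((A.filter fun a => R ≤ Om (WW Z B) a).card : ℝ) ≤ G := by
    have h1 := rankin (WW Z B) (fun p hp => (mem_filter.1 hp).2) y hy (by
      intro p hp
      unfold WW at hp
      rw [mem_filter, mem_Ioc] at hp
      have hp1 : (Z : ℝ) + 1 ≤ p := by exact_mod_cast hp.1.1
      linarith) N R
    have h2 : (A.filter fun a => R ≤ Om (WW Z B) a) ⊆
        ((Icc 1 N).filter fun a => R ≤ Om (WW Z B) a) := by
      intro a ha
      rw [mem_filter] at ha
      rw [mem_filter, mem_Icc]
      have := hA a ha.1
      exact ⟨⟨by omega, this.2⟩, ha.2⟩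
    have h3 : ((A.filter fun a => R ≤ Om (WW Z B) a).card : ℝ) ≤
        ((Icc 1 N).filter fun a => R ≤ Om (WW Z B) a).card := by
      exact_mod_cast card_le_card h2
    have h4 := prod_le Z B y hy0.le hyZ
    have h5 : ((A.filter fun a => R ≤ Om (WW Z B) a).card : ℝ) * y ^ R ≤ G * y ^ R := by
      calc ((A.filter fun a => R ≤ Om (WW Z B) a).card : ℝ) * y ^ R
          ≤ (((Icc 1 N).filter fun a => R ≤ Om (WW Z B) a).card : ℝ) * y ^ R := by gcongr
        _ ≤ N * ∏ p ∈ WW Z B, (1 - y / p)⁻¹ := h1
        _ ≤ N * Real.exp (2 * y * (1 + Real.log B)) := by gcongr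
        _ ≤ G * y ^ R := hG
    exact le_of_mul_le_mul_right h5 hyR
  have hgood : (A.card : ℝ) - G ≤ A'.card := by
    have h1 : (A.filter fun a => R ≤ Om (WW Z B) a).card + A'.card = A.card :=
      card_filter_add_card_filter_not _
    have h2 : ((A.filter fun a => R ≤ Om (WW Z B) a).card : ℝ) + A'.card = A.card := by
      exact_mod_cast h1
    linarith
  have hS : ∀ a ∈ A', a ≠ 0 ∧ a ≤ N ∧ Om (WW Z B) a ≤ R := by
    intro a ha
    rw [hA', mem_filter] at ha
    exact ⟨(hA a ha.1).1, (hA a ha.1).2, by omega⟩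
  have hcount := card_le_mul_card_image (s := Fintype.piFinset fun _ : Fin k => A')
    (f := fun f => ∏ i, f i) ((Nat.log 2 (N ^ k) + 1) ^ (k * Z) * k ^ (k * (R + T)))
    (fun m hm => rep_le2 k Z B N R T A' hk hB hS hT m hm)
  have hsub : ((Fintype.piFinset fun _ : Fin k => A').image fun f => ∏ i, f i) ⊆
      ((Fintype.piFinset fun _ : Fin k => A).image fun f => ∏ i, f i) := by
    apply image_subset_image
    intro f hf
    rw [Fintype.mem_piFinset] at hf ⊢
    intro i
    exact (mem_filter.1 (hf i)).1
  have hsub' := card_le_card hsub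
  have h6 : A'.card ^ k ≤ ((Nat.log 2 (N ^ k) + 1) ^ (k * Z) * k ^ (k * (R + T))) *
      ((Fintype.piFinset fun _ : Fin k => A).image fun f => ∏ i, f i).card := by
    have : (Fintype.piFinset fun _ : Fin k => A').card = A'.card ^ k := by simp
    rw [← this]
    exact hcount.trans (Nat.mul_le_mul_left _ hsub')
  have h7 : ((A'.card : ℝ)) ^ k ≤ ((Nat.log 2 (N ^ k) + 1 : ℕ) : ℝ) ^ (k * Z) *
      (k : ℝ) ^ (k * (R + T)) *
      (((Fintype.piFinset fun _ : Fin k => A).image fun f => ∏ i, f i).card : ℝ) := by
    exact_mod_cast h6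
  refine le_trans ?_ h7
  exact pow_le_pow_left₀ (by linarith) hgood k

end Pool.Agent.R95.SP
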