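import Pool.Agent.R95.SP.Fin

/-!
The lower bound for the `k`-fold product set of `n` integers of size at most `n ^ C`.
-/

namespace Pool.Agent.R95.SP
open Finset Filter

theorem ev2 (b c M : ℝ) (hb : 0 < b) (hc : 0 < c) :
    ∀ᶠ u : ℝ in atTop, M * u ^ 2 * Real.exp (-(b * u)) ≤ c := by
  have h1 : Tendsto (fun x : ℝ => x ^ 2 * Real.exp (-x)) atTop (nhds 0) :=
    Real.tendsto_pow_mul_exp_neg_atTop_nhds_zero 2
  have h2 : Tendsto (fun u : ℝ => b * u) atTop atTop := tendsto_id.const_mul_atTop hb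
  have h3 := (h1.comp h2).const_mul (M / b ^ 2)
  rw [mul_zero] at h3
  filter_upwards [h3.eventually_le_const hc] with u hu
  refine le_trans (le_of_eq ?_) hu
  simp only [Function.comp]
  field_simp

theorem evexp (c M : ℝ) (hc : 0 < c) : ∀ᶠ u : ℝ in atTop, M ≤ c * Real.exp u := by
  have h : Tendsto (fun u : ℝ => c * Real.exp u) atTop atTop :=
    Real.tendsto_exp_atTop.const_mul_atTop hc
  exact h.eventually_ge_atTop M

theorem evlin (c M : ℝ) (hc : 0 < c) : ∀ᶠ u : ℝ in atTop, M ≤ c * u := by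
  have h : Tendsto (fun u : ℝ => c * u) atTop atTop := tendsto_id.const_mul_atTop hc
  exact h.eventually_ge_atTop M

/-- `log log n` tends to infinity. -/
theorem evnat {P : ℝ → Prop} (h : ∀ᶠ u : ℝ in atTop, P u) :
    ∀ᶠ n : ℕ in atTop, P (Real.log (Real.log n)) :=
  ((Real.tendsto_log_atTop.comp Real.tendsto_log_atTop).comp tendsto_natCast_atTop_atTop).eventually
    h

theorem lowNat (k : ℕ) (hk : 1 ≤ k) (C δ : ℝ) (hC : 1 ≤ C) (hδ : 0 < δ) :
    ∀ᶠ n : ℕ in atTop, ∀ A : Finset ℕ, (∀ a ∈ A, a ≠ 0 ∧ (a : ℝ) ≤ (n : ℝ) ^ C) →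
      ((n : ℝ) - 1) / 2 ≤ A.card →
      (n : ℝ) ^ ((k : ℝ) - (k * (C - 1) * Real.log k + δ) / Real.log (Real.log n)) ≤
        (((Fintype.piFinset fun _ : Fin k => A).image fun f => ∏ i, f i).card : ℝ) := by
  classical
  have hk1 : (1 : ℝ) ≤ k := by exact_mod_cast hk
  have hlk : 0 ≤ Real.log k := Real.log_nonneg hk1
  set δ₁ : ℝ := δ / (4 * (k * Real.log k + 1)) with hδ₁d
  have hden : 0 < k * Real.log k + 1 := by positivity
  have hδ₁ : 0 < δ₁ := by positivity
  have hδ₁k : k * Real.log k * (2 * δ₁) ≤ δ / 2 := by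
    have h1 : (k * Real.log k + 1) * δ₁ = δ / 4 := by
      rw [hδ₁d]
      field_simp
    have h2 : k * Real.log k * (2 * δ₁) = 2 * ((k * Real.log k + 1) * δ₁) - 2 * δ₁ := by ring
    rw [h2, h1]
    linarith
  set K : ℝ := C / δ₁ with hKd
  have hK : 0 < K := by positivity
  have hCK : C / K = δ₁ := by
    rw [hKd]
    field_simp
  set η : ℝ := δ₁ / (4 * (C + δ₁)) with hηd
  have hη : 0 < η := by positivity
  have hηC : η * (C + δ₁) = δ₁ / 4 := by
    rw [hηd]
    field_simp
  have hη1 : η < 1 := by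
    rw [hηd, div_lt_one (by positivity)]
    linarith
  have E0 := evlin 1 1 one_pos
  have E1 := evlin (δ₁ / 4) ((C - 1 + δ₁) * Real.log 2) (by positivity)
  have E2 := ev2 η (δ₁ / 4) (1 + K) hη (by positivity)
  have E3 := evexp (δ₁ / 4) (Real.log 8) (by positivity)
  have E4 := evlin (1 - η) (Real.log 2) (by linarith)
  have E5 := evexp 1 (2 * k * C + 1) one_pos
  have E6 := ev2 1 (δ / 4) (k * Real.log 8 + k * Real.log k) one_pos (by positivity)
  have E7 := ev2 η (δ / 4) (2 * k) hη (by positivity)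
  filter_upwards [evnat E0, evnat E1, evnat E2, evnat E3, evnat E4, evnat E5, evnat E6, evnat E7,
    eventually_ge_atTop 3] with n e0 e1 e2 e3 e4 e5 e6 e7 hn A hA hcard
  set u : ℝ := Real.log (Real.log n) with hu
  have hn0 : (3 : ℝ) ≤ n := by exact_mod_cast hn
  have hu1 : 1 ≤ u := by linarith
  have hu0 : 0 < u := by linarith
  have hLpos : 0 < Real.log n := Real.log_pos (by linarith)
  have hLexp : Real.exp u = Real.log n := by rw [hu, Real.exp_log hLpos]
  set L : ℝ := Real.log n with hL
  have hLn : Real.exp L = n := by rw [hL, Real.exp_log (by linarith)]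
  -- parameters
  set E : ℝ := Real.exp ((1 - η) * u) with hE
  have hE0 : 0 < E := Real.exp_pos _
  have hEL : E = L * Real.exp (-(η * u)) := by
    rw [hE, ← hLexp, ← Real.exp_add]
    congr 1
    ring
  set Z : ℕ := ⌊E⌋₊ with hZ
  set y : ℝ := E / 2 with hy
  have hlogE : Real.log E = (1 - η) * u := by rw [hE, Real.log_exp]
  have hE2 : 2 ≤ E := by
    rw [hE]
    calc (2 : ℝ) = Real.exp (Real.log 2) := (Real.exp_log (by norm_num)).symm
      _ ≤ Real.exp ((1 - η) * u) := Real.exp_le_exp.2 e4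
  have hy1 : 1 ≤ y := by
    rw [hy]
    linarith
  have hyZ : 2 * y ≤ Z + 1 := by
    have := Nat.lt_floor_add_one E
    rw [hy, hZ]
    linarith
  set B : ℕ := ⌊Real.exp (K * u)⌋₊ with hB
  have hB1 : 1 ≤ B := by
    rw [hB, Nat.one_le_floor_iff]
    exact Real.one_le_exp (by positivity)
  have hBlt : Real.exp (K * u) < (B : ℝ) + 1 := by
    have := Nat.lt_floor_add_one (Real.exp (K * u))
    rw [hB]
    exact this
  have hlogB : Real.log B ≤ K * u := by
    have h1 : (B : ℝ) ≤ Real.exp (K * u) := Nat.floor_le (Real.exp_pos _).le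
    have h2 : (0 : ℝ) < B := by exact_mod_cast hB1
    calc Real.log B ≤ Real.log (Real.exp (K * u)) := Real.log_le_log h2 h1
      _ = K * u := Real.log_exp _
  set T : ℕ := ⌊C * L / (K * u)⌋₊ with hT
  set R : ℕ := ⌈(C - 1 + δ₁) * L / u⌉₊ with hR
  set N : ℕ := ⌊(n : ℝ) ^ C⌋₊ with hN
  have hnC : (n : ℝ) ^ C = Real.exp (C * L) := by
    rw [← hLn, ← Real.exp_mul, mul_comm]
  have hNle : (N : ℝ) ≤ Real.exp (C * L) := by
    rw [← hnC]
    exact Nat.floor_le (by positivity)
  have hNpos : 1 ≤ N := by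
    rw [hN, Nat.one_le_floor_iff, hnC]
    exact Real.one_le_exp (by positivity)
  have hNT : N < (B + 1) ^ (T + 1) := by
    have h1 : C * L < K * u * (T + 1) := by
      have h2 := Nat.lt_floor_add_one (C * L / (K * u))
      rw [div_lt_iff₀ (by positivity)] at h2
      rw [hT]
      linarith
    have h3 : (N : ℝ) < ((B : ℝ) + 1) ^ (T + 1) := by
      calc (N : ℝ) ≤ Real.exp (C * L) := hNle
        _ < Real.exp (K * u * (T + 1)) := Real.exp_lt_exp.2 h1
        _ = Real.exp (K * u) ^ (T + 1) := by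
            rw [← Real.exp_nat_mul]
            congr 1
            push_cast
            ring
        _ ≤ ((B : ℝ) + 1) ^ (T + 1) := pow_le_pow_left₀ (Real.exp_pos _).le hBlt.le _
    exact_mod_cast h3
  have hAN : ∀ a ∈ A, a ≠ 0 ∧ a ≤ N := fun a ha =>
    ⟨(hA a ha).1, Nat.le_floor (hA a ha).2⟩
  -- the bound for `G = n / 8`
  have hlogy : Real.log y = (1 - η) * u - Real.log 2 := by
    rw [hy, Real.log_div hE0.ne' (by norm_num), hlogE]
  have hlogy0 : 0 ≤ Real.log y := Real.log_nonneg hy1
  have hRge : (C - 1 + δ₁) * L / u ≤ R := Nat.le_ceil _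
  have hRle : (R : ℝ) ≤ (C - 1 + δ₁) * L / u + 1 := by
    have : (R : ℝ) < (C - 1 + δ₁) * L / u + 1 := by
      apply Nat.ceil_lt_add_one
      apply div_nonneg _ hu0.le
      apply mul_nonneg _ hLpos.le
      linarith
    linarith
  have hkey : C * L + E * (1 + K * u) ≤ L - Real.log 8 + R * Real.log y := by
    have h1 : (C - 1 + δ₁) * L * ((1 - η) - Real.log 2 / u) ≤ R * Real.log y := by
      calc (C - 1 + δ₁) * L * ((1 - η) - Real.log 2 / u)
          = (C - 1 + δ₁) * L / u * Real.log y := by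
            rw [hlogy]
            field_simp
        _ ≤ R * Real.log y := mul_le_mul_of_nonneg_right hRge hlogy0
    have h2 : (C - 1 + δ₁) * L * (Real.log 2 / u) ≤ δ₁ / 4 * L := by
      have h3 : (C - 1 + δ₁) * Real.log 2 / u ≤ δ₁ / 4 := by
        rw [div_le_iff₀ hu0]
        exact e1
      calc (C - 1 + δ₁) * L * (Real.log 2 / u) = (C - 1 + δ₁) * Real.log 2 / u * L := by ring
        _ ≤ δ₁ / 4 * L := mul_le_mul_of_nonneg_right h3 hLpos.le
    have h4 : (C - 1 + δ₁) * L * η ≤ δ₁ / 4 * L := by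
      have h4a : (C - 1 + δ₁) * η ≤ δ₁ / 4 := by
        have h4b : (C - 1 + δ₁) * η = η * (C + δ₁) - η := by ring
        rw [h4b, hηC]
        linarith
      calc (C - 1 + δ₁) * L * η = ((C - 1 + δ₁) * η) * L := by ring
        _ ≤ δ₁ / 4 * L := mul_le_mul_of_nonneg_right h4a hLpos.le
    have h5 : E * (1 + K * u) ≤ δ₁ / 4 * L := by
      have h6 : (1 + K * u) ≤ (1 + K) * u ^ 2 := by
        have h6a : u ≤ u ^ 2 := by
          rw [pow_two]
          exact le_mul_of_one_le_left hu0.le hu1
        have h6b : K * u ≤ K * u ^ 2 := mul_le_mul_of_nonneg_left h6a hK.le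
        have h6c : (1 + K) * u ^ 2 = u ^ 2 + K * u ^ 2 := by ring
        linarith
      calc E * (1 + K * u) ≤ E * ((1 + K) * u ^ 2) := by gcongr
        _ = L * ((1 + K) * u ^ 2 * Real.exp (-(η * u))) := by
            rw [hEL]
            ring
        _ ≤ L * (δ₁ / 4) := mul_le_mul_of_nonneg_left e2 hLpos.le
        _ = δ₁ / 4 * L := by ring
    have h7 : Real.log 8 ≤ δ₁ / 4 * L := by
      rw [← hLexp]
      exact e3
    have h8 : (C - 1 + δ₁) * L * ((1 - η) - Real.log 2 / u) = C * L - L + δ₁ * L -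
        (C - 1 + δ₁) * L * η - (C - 1 + δ₁) * L * (Real.log 2 / u) := by ring
    linarith
  have hG : (N : ℝ) * Real.exp (2 * y * (1 + Real.log B)) ≤ (n / 8 : ℝ) * y ^ R := by
    have h1 : (n / 8 : ℝ) * y ^ R = Real.exp (L - Real.log 8 + R * Real.log y) := by
      rw [Real.exp_add, Real.exp_sub, hLn, Real.exp_log (by norm_num), Real.exp_nat_mul,
        Real.exp_log (by linarith)]
    rw [h1]
    calc (N : ℝ) * Real.exp (2 * y * (1 + Real.log B))
        ≤ Real.exp (C * L) * Real.exp (E * (1 + K * u)) := by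
          apply mul_le_mul hNle _ (Real.exp_pos _).le (Real.exp_pos _).le
          apply Real.exp_le_exp.2
          have : 2 * y = E := by
            rw [hy]
            ring
          rw [this]
          gcongr
      _ = Real.exp (C * L + E * (1 + K * u)) := (Real.exp_add _ _).symm
      _ ≤ _ := Real.exp_le_exp.2 hkey
  have hGA : (n / 8 : ℝ) ≤ A.card := by linarith
  have hmain := lower_fin k Z B N R T y A hk hB1 hy1 hyZ hAN hNT (n / 8) hG hGA
  set X : ℝ := (((Fintype.piFinset fun _ : Fin k => A).image fun f => ∏ i, f i).card : ℝ) with hX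
  have hdiff : (n / 8 : ℝ) ≤ (A.card : ℝ) - n / 8 := by linarith
  -- D + 1 ≤ exp (2 u)
  have hD : ((Nat.log 2 (N ^ k) + 1 : ℕ) : ℝ) ≤ Real.exp (2 * u) := by
    have h1 : (2 : ℝ) ^ Nat.log 2 (N ^ k) ≤ (N : ℝ) ^ k := by
      exact_mod_cast Nat.pow_log_le_self 2 (pow_ne_zero k (by omega))
    have hNpos' : (0 : ℝ) < N := by exact_mod_cast hNpos
    have h2 : (Nat.log 2 (N ^ k) : ℝ) * Real.log 2 ≤ k * (C * L) := by
      have h3 := Real.log_le_log (by positivity) h1
      rw [Real.log_pow, Real.log_pow] at h3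
      refine h3.trans ?_
      have h4 : Real.log N ≤ C * L := by
        calc Real.log N ≤ Real.log (Real.exp (C * L)) := Real.log_le_log hNpos' hNle
          _ = C * L := Real.log_exp _
      gcongr
    have h5 : (1 : ℝ) / 2 ≤ Real.log 2 := by
      have := Real.log_two_gt_d9
      linarith
    have h6 : (Nat.log 2 (N ^ k) : ℝ) ≤ 2 * k * C * L := by
      have h6a : (0 : ℝ) ≤ Nat.log 2 (N ^ k) := Nat.cast_nonneg _
      have h6b : (Nat.log 2 (N ^ k) : ℝ) * (1 / 2) ≤ (Nat.log 2 (N ^ k) : ℝ) * Real.log 2 :=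
        mul_le_mul_of_nonneg_left h5 h6a
      linarith
    have h7 : (1 : ℝ) ≤ L := by
      rw [← hLexp]
      exact Real.one_le_exp hu0.le
    push_cast
    calc (Nat.log 2 (N ^ k) : ℝ) + 1 ≤ 2 * k * C * L + 1 := by linarith
      _ ≤ (2 * k * C + 1) * L := by
          have : (2 * k * C + 1) * L = 2 * k * C * L + L := by ring
          linarith
      _ ≤ (1 * Real.exp u) * L := mul_le_mul_of_nonneg_right e5 hLpos.le
      _ = Real.exp (2 * u) := by
          rw [← hLexp, one_mul, ← Real.exp_add]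
          congr 1
          ring
  have hXpos : 0 < X := by
    have hAne : A.Nonempty := by
      rw [← card_pos]
      have : (0 : ℝ) < A.card := by linarith
      exact_mod_cast this
    have : ((Fintype.piFinset fun _ : Fin k => A).image fun f => ∏ i, f i).Nonempty := by
      apply Nonempty.image
      rw [Fintype.piFinset_nonempty]
      exact fun _ => hAne
    rw [hX]
    exact_mod_cast card_pos.2 this
  -- take logarithms
  have hfin : Real.exp (k * (L - Real.log 8)) ≤
      Real.exp (k * E * (2 * u) + k * ((C - 1 + δ₁) * L / u + 1 + C * L / (K * u)) *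
        Real.log k) * X := by
    calc Real.exp (k * (L - Real.log 8)) = (n / 8 : ℝ) ^ k := by
          rw [Real.exp_nat_mul, Real.exp_sub, hLn, Real.exp_log (by norm_num)]
      _ ≤ ((A.card : ℝ) - n / 8) ^ k := pow_le_pow_left₀ (by positivity) hdiff k
      _ ≤ _ := hmain
      _ ≤ Real.exp (k * E * (2 * u) + k * ((C - 1 + δ₁) * L / u + 1 + C * L / (K * u)) *
        Real.log k) * X := by
          apply mul_le_mul_of_nonneg_right _ hXpos.le
          rw [Real.exp_add]
          apply mul_le_mul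
          · calc ((Nat.log 2 (N ^ k) + 1 : ℕ) : ℝ) ^ (k * Z)
                ≤ Real.exp (2 * u) ^ (k * Z) := pow_le_pow_left₀ (by positivity) hD _
              _ = Real.exp ((k * Z : ℕ) * (2 * u)) := (Real.exp_nat_mul _ _).symm
              _ ≤ Real.exp (k * E * (2 * u)) := by
                  apply Real.exp_le_exp.2
                  push_cast
                  have : (Z : ℝ) ≤ E := Nat.floor_le hE0.le
                  gcongr
          · calc (k : ℝ) ^ (k * (R + T)) = Real.exp ((k * (R + T) : ℕ) * Real.log k) := by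
                  rw [Real.exp_nat_mul, Real.exp_log (by linarith)]
              _ ≤ _ := by
                  apply Real.exp_le_exp.2
                  push_cast
                  have : (T : ℝ) ≤ C * L / (K * u) := Nat.floor_le (by positivity)
                  gcongr
          · positivity
          · positivity
  have hfin2 : Real.exp (k * (L - Real.log 8) - (k * E * (2 * u) +
      k * ((C - 1 + δ₁) * L / u + 1 + C * L / (K * u)) * Real.log k)) ≤ X := by
    rw [Real.exp_sub, div_le_iff₀ (Real.exp_pos _)]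
    linarith
  refine le_trans ?_ hfin2
  rw [← hLn, ← Real.exp_mul]
  apply Real.exp_le_exp.2
  -- final inequality
  have hLu : 0 < L / u := by positivity
  have f1 : C * L / (K * u) = δ₁ * (L / u) := by
    rw [← hCK]
    field_simp
  have f2 : k * E * (2 * u) ≤ δ / 4 * (L / u) := by
    have h1 : k * E * (2 * u) = (2 * k * u ^ 2 * Real.exp (-(η * u))) * (L / u) := by
      rw [hEL]
      field_simp
    rw [h1]
    exact mul_le_mul_of_nonneg_right e7 hLu.le
  have f3 : k * Real.log 8 + k * Real.log k ≤ δ / 4 * (L / u) := by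
    have h1 : (k * Real.log 8 + k * Real.log k) * u ^ 2 * Real.exp (-(1 * u)) ≤ δ / 4 := e6
    have h2 : Real.exp (-(1 * u)) = L⁻¹ := by rw [one_mul, Real.exp_neg, hLexp]
    rw [h2] at h1
    have h3 : 0 ≤ k * Real.log 8 + k * Real.log k := by positivity
    calc k * Real.log 8 + k * Real.log k ≤ (k * Real.log 8 + k * Real.log k) * u :=
          le_mul_of_one_le_right h3 hu1
      _ = (k * Real.log 8 + k * Real.log k) * u ^ 2 * L⁻¹ * (L / u) := by
          field_simp
      _ ≤ δ / 4 * (L / u) := mul_le_mul_of_nonneg_right h1 hLu.le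
  have f4 : k * Real.log k * (2 * δ₁) * (L / u) ≤ δ / 2 * (L / u) :=
    mul_le_mul_of_nonneg_right hδ₁k hLu.le
  rw [f1]
  have f5 : L * (k - (k * (C - 1) * Real.log k + δ) / u) =
      k * L - k * (C - 1) * Real.log k * (L / u) - δ * (L / u) := by
    field_simp
    ring
  rw [f5]
  have f6 : (C - 1 + δ₁) * L / u = (C - 1) * (L / u) + δ₁ * (L / u) := by
    field_simp
  rw [f6]
  have f7 : k * (L - Real.log 8) - (k * E * (2 * u) +
      k * ((C - 1) * (L / u) + δ₁ * (L / u) + 1 + δ₁ * (L / u)) * Real.log k) =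
      k * L - k * (C - 1) * Real.log k * (L / u) - (k * Real.log 8 + k * Real.log k) -
      k * E * (2 * u) - k * Real.log k * (2 * δ₁) * (L / u) := by ring
  rw [f7]
  linarith

/-- The lower bound for sets of integers. -/
theorem low (k : ℕ) (hk : 1 ≤ k) (C δ : ℝ) (hC : 1 ≤ C) (hδ : 0 < δ) :
    ∀ᶠ n : ℕ in atTop, ∀ A : Finset ℤ, A.card = n → (∀ a ∈ A, |(a : ℝ)| ≤ (n : ℝ) ^ C) →
      (n : ℝ) ^ ((k : ℝ) - (k * (C - 1) * Real.log k + δ) / Real.log (Real.log n)) ≤
        (((Fintype.piFinset fun _ : Fin k => A).image fun f => ∏ i, f i).card : ℝ) := by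
  classical
  filter_upwards [lowNat k hk C δ hC hδ] with n hn A hcard hA
  set A' : Finset ℕ := (A.erase 0).image Int.natAbs with hA'
  have h1 := hn A' (by
    intro a ha
    rw [hA', mem_image] at ha
    obtain ⟨b, hb, rfl⟩ := ha
    rw [mem_erase] at hb
    refine ⟨by simpa using hb.1, ?_⟩
    have := hA b hb.2
    rwa [Nat.cast_natAbs, Int.cast_abs]) (by
    have h2 : (A.erase 0).card ≤ 2 * A'.card := by
      apply card_le_mul_card_image
      intro b _
      have : (A.erase 0).filter (fun a => a.natAbs = b) ⊆ {(b : ℤ), -(b : ℤ)} := by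
        intro a ha
        rw [mem_filter] at ha
        rw [mem_insert, mem_singleton]
        omega
      exact (card_le_card this).trans card_le_two
    have h3 : A.card - 1 ≤ (A.erase 0).card := pred_card_le_card_erase
    have h4 : (n : ℝ) ≤ 2 * A'.card + 1 := by
      have : n ≤ 2 * A'.card + 1 := by omega
      exact_mod_cast this
    linarith)
  refine h1.trans ?_
  have h5 : ((Fintype.piFinset fun _ : Fin k => A').image fun f => ∏ i, f i) ⊆
      (((Fintype.piFinset fun _ : Fin k => A).image fun f => ∏ i, f i).image Int.natAbs) := by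
    intro m hm
    rw [mem_image] at hm
    obtain ⟨f, hf, rfl⟩ := hm
    rw [Fintype.mem_piFinset] at hf
    have h6 : ∀ i, ∃ b ∈ A, b.natAbs = f i := by
      intro i
      have := hf i
      rw [hA', mem_image] at this
      obtain ⟨b, hb, hbf⟩ := this
      exact ⟨b, (mem_erase.1 hb).2, hbf⟩
    choose g hg hgf using h6
    rw [mem_image]
    refine ⟨∏ i, g i, mem_image.2 ⟨g, Fintype.mem_piFinset.2 hg, rfl⟩, ?_⟩
    rw [← Int.natAbsHom_apply, map_prod]
    apply prod_congr rfl
    intro i _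
    exact hgf i
  have h7 := (card_le_card h5).trans card_image_le
  exact_mod_cast h7

end Pool.Agent.R95.SP
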