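import Pool.Agent.R95.SP.Up2

/-!
Sum-product form and the constants in the conjecture.
-/

namespace Pool.Agent.R95.SP
open Finset Filter

/-- `k`-fold product set -/
def kProd (k : ℕ) (A : Finset ℤ) : Finset ℤ :=
  (Fintype.piFinset fun _ : Fin k => A).image fun f => ∏ i, f i

/-- `k`-fold sumset -/
def kSum (k : ℕ) (A : Finset ℤ) : Finset ℤ :=
  (Fintype.piFinset fun _ : Fin k => A).image fun f => ∑ i, f i

theorem natToInt (k n : ℕ) (A : Finset ℕ) (hA : A.card = n) :
    (A.image fun a : ℕ => (a : ℤ)).card = n ∧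
      (kProd k (A.image fun a : ℕ => (a : ℤ))).card ≤
        ((Fintype.piFinset fun _ : Fin k => A).image fun f => ∏ i, f i).card := by
  classical
  constructor
  · rw [card_image_of_injective _ Nat.cast_injective, hA]
  · have hsub : kProd k (A.image fun a : ℕ => (a : ℤ)) ⊆
        (((Fintype.piFinset fun _ : Fin k => A).image fun f => ∏ i, f i).image
          fun a : ℕ => (a : ℤ)) := by
      intro m hm
      unfold kProd at hm
      rw [mem_image] at hm
      obtain ⟨f, hf, rfl⟩ := hm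
      rw [Fintype.mem_piFinset] at hf
      have h6 : ∀ i, ∃ b ∈ A, (b : ℤ) = f i := by
        intro i
        have := hf i
        rw [mem_image] at this
        obtain ⟨b, hb, hbf⟩ := this
        exact ⟨b, hb, hbf⟩
      choose g hg hgf using h6
      rw [mem_image]
      refine ⟨∏ i, g i, mem_image.2 ⟨g, Fintype.mem_piFinset.2 hg, rfl⟩, ?_⟩
      rw [Nat.cast_prod]
      exact prod_congr rfl fun i _ => hgf i
    exact (card_le_card hsub).trans card_image_le

/-- Upper bound for products, sets of integers, all `C ≥ 1`. -/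
theorem upZ (k : ℕ) (hk : 1 ≤ k) (C δ : ℝ) (hC : 1 ≤ C) (hδ : 0 < δ) :
    ∀ᶠ n : ℕ in atTop, ∃ A : Finset ℤ, A.card = n ∧
      (∀ a ∈ A, 0 < a ∧ (a : ℝ) ≤ (n : ℝ) ^ C) ∧
      ((kProd k A).card : ℝ) ≤
        (n : ℝ) ^ ((k : ℝ) - (k * (C - 1) * Real.log k - δ) / Real.log (Real.log n)) := by
  classical
  rcases eq_or_lt_of_le hC with h1 | h1
  · filter_upwards [evnat (evlin 1 1 one_pos), eventually_ge_atTop 3] with n e0 hn
    have hu0 : 0 < Real.log (Real.log n) := by linarith
    have hn1 : (1 : ℝ) ≤ n := by exact_mod_cast (by omega : 1 ≤ n)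
    obtain ⟨h2, h3⟩ := natToInt k n (Icc 1 n) (by simp)
    refine ⟨_, h2, ?_, ?_⟩
    · intro a ha
      rw [mem_image] at ha
      obtain ⟨b, hb, rfl⟩ := ha
      rw [mem_Icc] at hb
      refine ⟨by exact_mod_cast hb.1, ?_⟩
      rw [← h1, Real.rpow_one]
      exact_mod_cast hb.2
    · have h4 : ((Fintype.piFinset fun _ : Fin k => Icc 1 n).image fun f => ∏ i, f i).card ≤
          n ^ k := by
        refine card_image_le.trans ?_
        simp
      have h5 : ((kProd k ((Icc 1 n).image fun a : ℕ => (a : ℤ))).card : ℝ) ≤ (n : ℝ) ^ k := by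
        exact_mod_cast h3.trans h4
      refine h5.trans ?_
      rw [← Real.rpow_natCast]
      apply Real.rpow_le_rpow_of_exponent_le hn1
      rw [← h1, sub_self, mul_zero, zero_mul, zero_sub, neg_div, sub_neg_eq_add]
      have : 0 < δ / Real.log (Real.log n) := by positivity
      linarith
  · filter_upwards [up k hk C δ h1 hδ] with n hn
    obtain ⟨A, hA, hAC, hAk⟩ := hn
    obtain ⟨h2, h3⟩ := natToInt k n A hA
    refine ⟨_, h2, ?_, ?_⟩
    · intro a ha
      rw [mem_image] at ha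
      obtain ⟨b, hb, rfl⟩ := ha
      have := hAC b hb
      refine ⟨by exact_mod_cast this.1, ?_⟩
      exact_mod_cast this.2
    · refine le_trans ?_ hAk
      exact_mod_cast h3

/-- The sumset of positive integers up to `x`. -/
theorem card_kSum_le (k : ℕ) (x : ℝ) (A : Finset ℤ)
    (hA : ∀ a ∈ A, 0 < a ∧ (a : ℝ) ≤ x) (hk : 1 ≤ k) (hx : 0 ≤ x) :
    ((kSum k A).card : ℝ) ≤ k * x := by
  classical
  have hsub : kSum k A ⊆ Icc 1 (⌊k * x⌋) := by
    intro m hm
    unfold kSum at hm
    rw [mem_image] at hm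
    obtain ⟨f, hf, rfl⟩ := hm
    rw [Fintype.mem_piFinset] at hf
    rw [mem_Icc]
    constructor
    · have : NeZero k := ⟨by omega⟩
      have h1 : (0 : ℤ) < ∑ i, f i := by
        apply sum_pos
        · intro i _
          exact (hA _ (hf i)).1
        · exact univ_nonempty
      omega
    · rw [Int.le_floor]
      push_cast
      calc ∑ i, (f i : ℝ) ≤ ∑ _i : Fin k, x := sum_le_sum fun i _ => (hA _ (hf i)).2
        _ = k * x := by simp
  have h1 := card_le_card hsub
  rw [Int.card_Icc] at h1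
  have h2 : ((kSum k A).card : ℝ) ≤ ((⌊k * x⌋ + 1 - 1).toNat : ℝ) := by exact_mod_cast h1
  refine h2.trans ?_
  rw [add_sub_cancel_right]
  have h3 : 0 ≤ ⌊k * x⌋ := Int.floor_nonneg.2 (by positivity)
  have h4 : ((⌊k * x⌋.toNat : ℕ) : ℝ) = ((⌊k * x⌋ : ℤ) : ℝ) := by
    have := Int.toNat_of_nonneg h3
    exact_mod_cast this
  rw [h4]
  exact Int.floor_le _

/-- The construction for sums and products. -/
theorem upSP (k : ℕ) (hk : 2 ≤ k) (δ : ℝ) (hδ : 0 < δ) :
    ∀ᶠ n : ℕ in atTop, ∃ A : Finset ℤ, A.card = n ∧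
      (∀ a ∈ A, 0 < a ∧ (a : ℝ) ≤ (n : ℝ) ^ (k : ℝ)) ∧
      max ((kSum k A).card : ℝ) ((kProd k A).card : ℝ) ≤
        (n : ℝ) ^ ((k : ℝ) - (k * (k - 1) * Real.log k - δ) / Real.log (Real.log n)) := by
  have hk2 : (2 : ℝ) ≤ k := by exact_mod_cast hk
  have hlk : 0 < Real.log k := Real.log_pos (by linarith)
  set d : ℝ := min (1 / 2) (δ / (2 * (k * Real.log k))) with hd
  have hkl : 0 < k * Real.log k := by positivity
  have hd0 : 0 < d := lt_min (by norm_num) (by positivity)
  have hd1 : d ≤ 1 / 2 := min_le_left _ _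
  have hd2 : k * Real.log k * d ≤ δ / 2 := by
    have h1 : d ≤ δ / (2 * (k * Real.log k)) := min_le_right _ _
    have h2 := mul_le_mul_of_nonneg_left h1 hkl.le
    have h3 : k * Real.log k * (δ / (2 * (k * Real.log k))) = δ / 2 := by
      field_simp
    rwa [h3] at h2
  set C : ℝ := k - d with hC
  have hC1 : 1 ≤ C := by linarith
  have E1 := evlin (d / 2) (k * (k - 1) * Real.log k) (by positivity)
  have E2 := evexp (d / 2) (Real.log k) (by positivity)
  filter_upwards [upZ k (by omega) C (δ / 2) hC1 (by positivity), evnat (evlin 1 1 one_pos),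
    evnat E1, evnat E2, eventually_ge_atTop 3] with n hn e0 e1 e2 hn3
  obtain ⟨A, hAn, hAC, hAk⟩ := hn
  set u : ℝ := Real.log (Real.log n) with hu
  have hn0 : (3 : ℝ) ≤ n := by exact_mod_cast hn3
  have hu0 : 0 < u := by linarith
  have hLpos : 0 < Real.log n := Real.log_pos (by linarith)
  have hLexp : Real.exp u = Real.log n := by rw [hu, Real.exp_log hLpos]
  have hLn : Real.exp (Real.log n) = n := Real.exp_log (by linarith)
  have hn1 : (1 : ℝ) ≤ n := by linarith
  refine ⟨A, hAn, fun a ha => ⟨(hAC a ha).1, (hAC a ha).2.trans ?_⟩, ?_⟩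
  · apply Real.rpow_le_rpow_of_exponent_le hn1
    linarith
  · apply max_le
    · have h1 := card_kSum_le k ((n : ℝ) ^ C) A hAC (by omega) (by positivity)
      refine h1.trans ?_
      have h2 : (k : ℝ) * (n : ℝ) ^ C = Real.exp (Real.log k + Real.log n * C) := by
        rw [Real.exp_add, Real.exp_log (by linarith), Real.exp_mul, hLn]
      rw [h2, Real.rpow_def_of_pos (by linarith)]
      apply Real.exp_le_exp.2
      set L : ℝ := Real.log n with hL
      rw [hLexp] at e2
      have h3 : (k * (k - 1) * Real.log k) / u ≤ d / 2 := by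
        rw [div_le_iff₀ hu0]
        exact e1
      have h4 : L * ((k : ℝ) - (k * (k - 1) * Real.log k - δ) / u) =
          L * k - L * ((k * (k - 1) * Real.log k) / u) + L * (δ / u) := by
        rw [sub_div]
        ring
      rw [h4]
      have h5 : L * ((k * (k - 1) * Real.log k) / u) ≤ L * (d / 2) :=
        mul_le_mul_of_nonneg_left h3 hLpos.le
      have h6 : 0 ≤ L * (δ / u) := by positivity
      have h7 : L * C = L * k - L * d := by
        rw [hC]
        ring
      linarith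
    · refine hAk.trans ?_
      apply Real.rpow_le_rpow_of_exponent_le hn1
      have h1 : (k * (k - 1) * Real.log k - δ) / u ≤ (k * (C - 1) * Real.log k - δ / 2) / u := by
        apply div_le_div_of_nonneg_right _ hu0.le
        have h2 : k * (C - 1) * Real.log k = k * (k - 1) * Real.log k - k * Real.log k * d := by
          rw [hC]
          ring
        rw [h2]
        linarith
      linarith

/-- Necessary size of the constant, `δ` small. -/
theorem const_le' (k : ℕ) (hk : 2 ≤ k) (δ : ℝ) (hδ : 0 < δ)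
    (hδk : δ ≤ k * (k - 1) * Real.log k / 2) :
    ∃ ε₀ : ℝ, 0 < ε₀ ∧ ∀ ε : ℝ, 0 < ε → ε ≤ ε₀ → ∀ c : ℝ,
      (∀ A : Finset ℤ, A.Nonempty → c * (A.card : ℝ) ^ ((k : ℝ) - ε) ≤
        max ((kSum k A).card : ℝ) ((kProd k A).card : ℝ)) →
      c ≤ Real.exp (-Real.exp ((k * (k - 1) * Real.log k - δ) / ε)) := by
  have hk2 : (2 : ℝ) ≤ k := by exact_mod_cast hk
  have hlk : 0 < Real.log k := Real.log_pos (by linarith)
  set κ : ℝ := k * (k - 1) * Real.log k with hκ
  have hκ0 : 0 < κ := by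
    rw [hκ]
    have : (0 : ℝ) < k - 1 := by linarith
    positivity
  set κ' : ℝ := κ - δ / 2 with hκ'
  have hκ'0 : 0 < κ' := by linarith
  obtain ⟨n₀, hn₀⟩ := eventually_atTop.1 (upSP k hk (δ / 2) (by positivity))
  -- the conditions on `ε`, as conditions on `v = 1 / ε`
  have V1 := evlin κ' (Real.log (Real.log (n₀ + 3)) + 3) hκ'0
  have V2 : ∀ᶠ v : ℝ in atTop, 1 + Real.log (2 * κ' * v ^ 2) ≤ δ / 2 * v := by
    have h1 := ev2 (δ / 2) (1 / (2 * κ' * Real.exp 1)) 1 (by positivity) (by positivity)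
    filter_upwards [h1, eventually_ge_atTop 1] with v hv hv1
    have hv0 : 0 < v := by linarith
    have h2 : 2 * κ' * Real.exp 1 * v ^ 2 ≤ Real.exp (δ / 2 * v) := by
      rw [one_mul, le_div_iff₀ (by positivity), Real.exp_neg] at hv
      have h3 : v ^ 2 * (Real.exp (δ / 2 * v))⁻¹ * (2 * κ' * Real.exp 1) *
          Real.exp (δ / 2 * v) ≤ 1 * Real.exp (δ / 2 * v) :=
        mul_le_mul_of_nonneg_right hv (Real.exp_pos _).le
      have h4 : v ^ 2 * (Real.exp (δ / 2 * v))⁻¹ * (2 * κ' * Real.exp 1) *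
          Real.exp (δ / 2 * v) = 2 * κ' * Real.exp 1 * v ^ 2 := by
        have := (Real.exp_pos (δ / 2 * v)).ne'
        field_simp
      rw [h4, one_mul] at h3
      exact h3
    have h5 := Real.log_le_log (by positivity) h2
    rw [Real.log_exp] at h5
    have h6 : 2 * κ' * Real.exp 1 * v ^ 2 = Real.exp 1 * (2 * κ' * v ^ 2) := by ring
    rw [h6, Real.log_mul (Real.exp_pos _).ne' (by positivity), Real.log_exp] at h5
    exact h5
  obtain ⟨v₀, hv₀⟩ := eventually_atTop.1 (V1.and (V2.and (eventually_ge_atTop (1 : ℝ))))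
  have hv₀1 : 1 ≤ max v₀ 1 := le_max_right _ _
  refine ⟨1 / max v₀ 1, by positivity, fun ε hε hεle c hc => ?_⟩
  set v : ℝ := 1 / ε with hv
  have hvv : max v₀ 1 ≤ v := by
    rw [hv, le_div_iff₀ hε]
    rw [le_div_iff₀ (by positivity)] at hεle
    linarith
  obtain ⟨v1, v2, v3⟩ := hv₀ v ((le_max_left _ _).trans hvv)
  have hv0 : 0 < v := by linarith
  have hεv : ε = 1 / v := by
    rw [hv]
    field_simp
  -- the choice of `n`
  set x₀ : ℝ := κ' * v - 1 with hx₀
  have hloglog : 0 ≤ Real.log (Real.log ((n₀ : ℝ) + 3)) ∨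
      Real.log (Real.log ((n₀ : ℝ) + 3)) < 0 := le_or_gt _ _
  have hl3 : (1 : ℝ) ≤ Real.log ((n₀ : ℝ) + 3) := by
    rw [Real.le_log_iff_exp_le (by positivity)]
    have := Real.exp_one_lt_d9
    have h0 : (0 : ℝ) ≤ n₀ := Nat.cast_nonneg _
    linarith
  have hll3 : 0 ≤ Real.log (Real.log ((n₀ : ℝ) + 3)) := Real.log_nonneg hl3
  have hx₀1 : 1 ≤ x₀ := by linarith
  set n : ℕ := ⌈Real.exp (Real.exp x₀)⌉₊ with hn
  have hnge : Real.exp (Real.exp x₀) ≤ n := Nat.le_ceil _
  have hnn₀ : n₀ ≤ n := by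
    have h1 : Real.log (Real.log ((n₀ : ℝ) + 3)) ≤ x₀ := by linarith
    have h2 : (n₀ : ℝ) + 3 ≤ Real.exp (Real.exp x₀) := by
      rw [← Real.log_le_iff_le_exp (by positivity), ← Real.log_le_iff_le_exp (by linarith)]
      exact h1
    have h3 : (n₀ : ℝ) ≤ n := by linarith
    exact_mod_cast h3
  have hexp1 : (2 : ℝ) ≤ Real.exp 1 := by
    have := Real.exp_one_gt_d9
    linarith
  have hexx : Real.exp 1 ≤ Real.exp x₀ := Real.exp_le_exp.2 hx₀1
  have hnpos : (0 : ℝ) < n := lt_of_lt_of_le (Real.exp_pos _) hnge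
  have hnle : (n : ℝ) ≤ Real.exp (Real.exp (x₀ + 1 / 2)) := by
    have h1 : (n : ℝ) < Real.exp (Real.exp x₀) + 1 := Nat.ceil_lt_add_one (Real.exp_pos _).le
    have h2 : (1 : ℝ) ≤ Real.exp (Real.exp x₀) := Real.one_le_exp (Real.exp_pos _).le
    have h3 : Real.exp (Real.exp x₀) + 1 ≤ Real.exp (Real.log 2 + Real.exp x₀) := by
      rw [Real.exp_add, Real.exp_log (by norm_num)]
      linarith
    have h4 : Real.log 2 + Real.exp x₀ ≤ Real.exp (x₀ + 1 / 2) := by
      rw [Real.exp_add]
      have h5 : (1 : ℝ) + 1 / 2 ≤ Real.exp (1 / 2) := by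
        have := Real.add_one_le_exp (1 / 2 : ℝ)
        linarith
      have h6 : Real.log 2 ≤ 1 := by
        have := Real.log_two_lt_d9
        linarith
      nlinarith
    calc (n : ℝ) ≤ Real.exp (Real.exp x₀) + 1 := h1.le
      _ ≤ Real.exp (Real.log 2 + Real.exp x₀) := h3
      _ ≤ Real.exp (Real.exp (x₀ + 1 / 2)) := Real.exp_le_exp.2 h4
  have hLge : Real.exp x₀ ≤ Real.log n := by
    rw [Real.le_log_iff_exp_le hnpos]
    exact hnge
  have hLpos : 0 < Real.log n := lt_of_lt_of_le (Real.exp_pos _) hLge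
  have hu_le : Real.log (Real.log n) ≤ x₀ + 1 / 2 := by
    rw [Real.log_le_iff_le_exp hLpos, Real.log_le_iff_le_exp hnpos]
    exact hnle
  have hu_ge : x₀ ≤ Real.log (Real.log n) := by
    rw [Real.le_log_iff_exp_le hLpos]
    exact hLge
  have hu0 : 0 < Real.log (Real.log n) := by linarith
  obtain ⟨A, hAn, _, hAmax⟩ := hn₀ n hnn₀
  have hAne : A.Nonempty := by
    rw [← card_pos, hAn]
    exact_mod_cast hnpos
  have h1 := (hc A hAne).trans hAmax
  rw [hAn] at h1
  -- c ≤ n ^ (ε - κ'/u)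
  have h2 : c ≤ (n : ℝ) ^ (ε - κ' / Real.log (Real.log n)) := by
    have h3 : 0 < (n : ℝ) ^ ((k : ℝ) - ε) := by positivity
    have h4 : (n : ℝ) ^ (ε - κ' / Real.log (Real.log n)) * (n : ℝ) ^ ((k : ℝ) - ε) =
        (n : ℝ) ^ ((k : ℝ) - (κ - δ / 2) / Real.log (Real.log n)) := by
      rw [← Real.rpow_add hnpos]
      congr 1
      rw [hκ']
      ring
    rw [← h4] at h1
    exact le_of_mul_le_mul_right h1 h3
  refine h2.trans ?_
  rw [Real.rpow_def_of_pos hnpos]
  apply Real.exp_le_exp.2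
  -- log n (ε - κ'/u) ≤ - exp(...)
  have h5 : ε ^ 2 / (2 * κ') ≤ κ' / Real.log (Real.log n) - ε := by
    have h6 : κ' / (κ' * v - 1 / 2) ≤ κ' / Real.log (Real.log n) := by
      apply div_le_div_of_nonneg_left hκ'0.le hu0
      linarith
    have h7 : ε + ε ^ 2 / (2 * κ') ≤ κ' / (κ' * v - 1 / 2) := by
      have h8 : 0 < κ' * v - 1 / 2 := by linarith
      rw [le_div_iff₀ h8, hεv]
      have h9 : (1 / v + (1 / v) ^ 2 / (2 * κ')) * (κ' * v - 1 / 2) =
          κ' - 1 / (4 * κ' * v ^ 2) := by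
        field_simp
        ring
      rw [h9]
      have : 0 ≤ 1 / (4 * κ' * v ^ 2) := by positivity
      linarith
    linarith
  have h10 : Real.exp ((κ - δ) / ε) ≤ Real.exp x₀ * (ε ^ 2 / (2 * κ')) := by
    have h11 : ε ^ 2 / (2 * κ') = Real.exp (-Real.log (2 * κ' * v ^ 2)) := by
      rw [Real.exp_neg, Real.exp_log (by positivity), hεv]
      field_simp
    rw [h11, ← Real.exp_add]
    apply Real.exp_le_exp.2
    have h12 : (κ - δ) / ε = κ' * v - δ / 2 * v := by
      rw [hκ', hεv]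
      field_simp
      ring
    rw [h12, hx₀]
    linarith
  have h13 : Real.exp x₀ * (ε ^ 2 / (2 * κ')) ≤
      Real.log n * (κ' / Real.log (Real.log n) - ε) := by
    apply mul_le_mul hLge h5 (by positivity) hLpos.le
  have h14 : Real.log n * (ε - κ' / Real.log (Real.log n)) =
      -(Real.log n * (κ' / Real.log (Real.log n) - ε)) := by ring
  rw [h14]
  linarith

/-- Necessary size of the constant. -/
theorem const_le (k : ℕ) (hk : 2 ≤ k) (δ : ℝ) (hδ : 0 < δ) :
    ∃ ε₀ : ℝ, 0 < ε₀ ∧ ∀ ε : ℝ, 0 < ε → ε ≤ ε₀ → ∀ c : ℝ,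
      (∀ A : Finset ℤ, A.Nonempty → c * (A.card : ℝ) ^ ((k : ℝ) - ε) ≤
        max ((kSum k A).card : ℝ) ((kProd k A).card : ℝ)) →
      c ≤ Real.exp (-Real.exp ((k * (k - 1) * Real.log k - δ) / ε)) := by
  have hk2 : (2 : ℝ) ≤ k := by exact_mod_cast hk
  have hlk : 0 < Real.log k := Real.log_pos (by linarith)
  have hκ0 : 0 < k * (k - 1) * Real.log k := by
    have : (0 : ℝ) < k - 1 := by linarith
    positivity
  obtain ⟨ε₀, hε₀, h⟩ := const_le' k hk (min δ (k * (k - 1) * Real.log k / 2))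
    (lt_min hδ (by positivity)) (min_le_right _ _)
  refine ⟨ε₀, hε₀, fun ε hε hεle c hc => (h ε hε hεle c hc).trans ?_⟩
  apply Real.exp_le_exp.2
  apply neg_le_neg
  apply Real.exp_le_exp.2
  apply div_le_div_of_nonneg_right _ hε.le
  linarith [min_le_left δ (k * (k - 1) * Real.log k / 2)]

/-- Sufficient size of the constant for the sets of integers of size at most `|A| ^ k`. -/
theorem const_ge (k : ℕ) (hk : 2 ≤ k) (δ : ℝ) (hδ : 0 < δ) :
    ∃ ε₀ : ℝ, 0 < ε₀ ∧ ∀ ε : ℝ, 0 < ε → ε ≤ ε₀ →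
      ∀ A : Finset ℤ, A.Nonempty → (∀ a ∈ A, |(a : ℝ)| ≤ (A.card : ℝ) ^ (k : ℝ)) →
        Real.exp (-Real.exp ((k * (k - 1) * Real.log k + δ) / ε)) *
          (A.card : ℝ) ^ ((k : ℝ) - ε) ≤ ((kProd k A).card : ℝ) := by
  have hk2 : (2 : ℝ) ≤ k := by exact_mod_cast hk
  have hlk : 0 < Real.log k := Real.log_pos (by linarith)
  set κ : ℝ := k * (k - 1) * Real.log k with hκ
  have hκ0 : 0 < κ := by
    rw [hκ]
    have : (0 : ℝ) < k - 1 := by linarith
    positivity
  have hev := (low k (by omega) k δ (by linarith) hδ).and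
    ((evnat (evlin 1 (max 1 (κ + δ)) one_pos)).and (eventually_ge_atTop 3))
  obtain ⟨n₀, hn₀⟩ := eventually_atTop.1 hev
  have hlog0 : 0 ≤ Real.log ((n₀ : ℝ) + 1) := Real.log_nonneg (by
    have : (0 : ℝ) ≤ n₀ := Nat.cast_nonneg _
    linarith)
  refine ⟨(κ + δ) / (k * Real.log ((n₀ : ℝ) + 1) + 1), by positivity, ?_⟩
  intro ε hε hεle A hA hAk
  set n : ℕ := A.card with hn
  have hn1 : 1 ≤ n := card_pos.2 hA
  have hn1' : (1 : ℝ) ≤ n := by exact_mod_cast hn1
  set M : ℝ := (κ + δ) / ε with hM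
  have hM0 : 0 < M := by positivity
  have hMε : M * ε = κ + δ := by
    rw [hM]
    field_simp
  by_cases hnn : n₀ ≤ n
  · obtain ⟨h1, h2, h3⟩ := hn₀ n hnn
    have h4 := h1 A hn.symm hAk
    change _ ≤ ((kProd k A).card : ℝ) at h4
    refine le_trans ?_ h4
    rw [one_mul] at h2
    set u : ℝ := Real.log (Real.log n) with hu
    have hu1 : 1 ≤ u := (le_max_left _ _).trans h2
    have huκ : κ + δ ≤ u := (le_max_right _ _).trans h2
    have hu0 : 0 < u := by linarith
    have hn3 : (3 : ℝ) ≤ n := by exact_mod_cast h3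
    have hLpos : 0 < Real.log n := Real.log_pos (by linarith)
    have hLexp : Real.exp u = Real.log n := by rw [hu, Real.exp_log hLpos]
    have hnpos : (0 : ℝ) < n := by linarith
    rw [Real.rpow_def_of_pos hnpos, Real.rpow_def_of_pos hnpos, ← Real.exp_add]
    apply Real.exp_le_exp.2
    have h5 : Real.log n * ((κ + δ) / u) ≤ Real.exp M + Real.log n * ε := by
      by_cases huM : M ≤ u
      · have h6 : (κ + δ) / u ≤ ε := by
          rw [div_le_iff₀ hu0, ← hMε]
          rw [mul_comm M ε]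
          exact mul_le_mul_of_nonneg_left huM hε.le
        have h7 := mul_le_mul_of_nonneg_left h6 hLpos.le
        have := Real.exp_pos M
        linarith
      · push Not at huM
        have h6 : (κ + δ) / u ≤ 1 := by
          rw [div_le_one hu0]
          exact huκ
        have h7 : Real.log n * ((κ + δ) / u) ≤ Real.log n * 1 :=
          mul_le_mul_of_nonneg_left h6 hLpos.le
        have h8 : Real.log n ≤ Real.exp M := by
          rw [← hLexp]
          exact Real.exp_le_exp.2 huM.le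
        have h9 : 0 ≤ Real.log n * ε := by positivity
        linarith
    have h10 : Real.log n * ((k : ℝ) - (k * (k - 1) * Real.log k + δ) / u) =
        Real.log n * k - Real.log n * ((κ + δ) / u) := by
      rw [hκ]
      ring
    rw [h10]
    have h11 : Real.log n * ((k : ℝ) - ε) = Real.log n * k - Real.log n * ε := by ring
    rw [h11]
    linarith
  · push Not at hnn
    have hcard : (1 : ℝ) ≤ ((kProd k A).card : ℝ) := by
      have : (kProd k A).Nonempty := by
        unfold kProd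
        apply Nonempty.image
        rw [Fintype.piFinset_nonempty]
        exact fun _ => hA
      exact_mod_cast card_pos.2 this
    refine le_trans ?_ hcard
    have hnpos : (0 : ℝ) < n := by linarith
    rw [Real.rpow_def_of_pos hnpos, ← Real.exp_add, ← Real.exp_zero]
    apply Real.exp_le_exp.2
    have h1 : Real.log n ≤ Real.log ((n₀ : ℝ) + 1) := by
      apply Real.log_le_log hnpos
      have : (n : ℝ) ≤ n₀ := by exact_mod_cast hnn.le
      linarith
    have hlogn : 0 ≤ Real.log n := Real.log_nonneg hn1'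
    have h2 : Real.log n * ((k : ℝ) - ε) ≤ k * Real.log ((n₀ : ℝ) + 1) := by
      calc Real.log n * ((k : ℝ) - ε) ≤ Real.log n * k := by
            apply mul_le_mul_of_nonneg_left _ hlogn
            linarith
        _ ≤ Real.log ((n₀ : ℝ) + 1) * k := mul_le_mul_of_nonneg_right h1 (by linarith)
        _ = k * Real.log ((n₀ : ℝ) + 1) := mul_comm _ _
    have h3 : k * Real.log ((n₀ : ℝ) + 1) + 1 ≤ M := by
      rw [hM, le_div_iff₀ hε]
      rw [le_div_iff₀ (by positivity)] at hεle
      linarith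
    have h4 : M + 1 ≤ Real.exp M := Real.add_one_le_exp M
    linarith

end Pool.Agent.R95.SP
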