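import Pool.Agent.R95.SP.Low

/-!
The construction: products of `r` primes out of `t`.
-/

namespace Pool.Agent.R95.SP
open Finset Filter

/-- products of `r` primes of `P` (with repetition) -/
noncomputable def MM (P : Finset ℕ) (r : ℕ) : Finset ℕ :=
  (P.finsuppAntidiag r).image fun f => f.prod fun p e => p ^ e

theorem mem_MM (P : Finset ℕ) (hP : ∀ p ∈ P, p.Prime) (r x : ℕ) :
    x ∈ MM P r ↔ x ≠ 0 ∧ x.primeFactors ⊆ P ∧ ∑ p ∈ P, x.factorization p = r := by
  unfold MM
  rw [mem_image]
  constructor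
  · rintro ⟨f, hf, rfl⟩
    rw [mem_finsuppAntidiag] at hf
    have h1 : ∀ p ∈ f.support, p.Prime := fun p hp => hP p (hf.2 hp)
    have h2 := Nat.prod_pow_factorization_eq_self h1
    refine ⟨?_, ?_, ?_⟩
    · rw [Finsupp.prod]
      exact prod_ne_zero_iff.2 fun p hp => pow_ne_zero _ (h1 p hp).ne_zero
    · rw [← Nat.support_factorization, h2]
      exact hf.2
    · rw [h2]
      exact hf.1
  · rintro ⟨h0, h1, h2⟩
    refine ⟨x.factorization, ?_, Nat.prod_factorization_pow_eq_self h0⟩
    rw [mem_finsuppAntidiag, Nat.support_factorization]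
    exact ⟨h2, h1⟩

theorem card_MM (P : Finset ℕ) (hP : ∀ p ∈ P, p.Prime) (r : ℕ) :
    (MM P r).card = (P.card + r - 1).choose r := by
  unfold MM
  rw [card_image_of_injOn, card_finsuppAntidiag_nat_eq_choose]
  intro f hf g hg hfg
  rw [mem_coe, mem_finsuppAntidiag] at hf hg
  have h1 := Nat.prod_pow_factorization_eq_self (f := f) fun p hp => hP p (hf.2 hp)
  have h2 := Nat.prod_pow_factorization_eq_self (f := g) fun p hp => hP p (hg.2 hp)
  rw [← h1, ← h2]
  exact congrArg _ hfg

theorem MM_le (P : Finset ℕ) (hP : ∀ p ∈ P, p.Prime) (Q r x : ℕ) (hQ : ∀ p ∈ P, p ≤ Q)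
    (hx : x ∈ MM P r) : x ≤ Q ^ r := by
  rw [mem_MM P hP] at hx
  obtain ⟨h0, h1, h2⟩ := hx
  calc x = ∏ p ∈ x.primeFactors, p ^ x.factorization p := by
        have := Nat.prod_factorization_pow_eq_self h0
        rw [Finsupp.prod, Nat.support_factorization] at this
        exact this.symm
    _ ≤ ∏ p ∈ x.primeFactors, Q ^ x.factorization p :=
        prod_le_prod' fun p hp => Nat.pow_le_pow_left (hQ p (h1 hp)) _
    _ = Q ^ ∑ p ∈ x.primeFactors, x.factorization p := by rw [prod_pow_eq_pow_sum]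
    _ = Q ^ r := by
        congr 1
        rw [← h2]
        apply sum_subset h1
        intro p _ hp
        rw [← Finsupp.notMem_support_iff, Nat.support_factorization]
        exact hp

theorem up_fin (P : Finset ℕ) (hP : ∀ p ∈ P, p.Prime) (Q n r k : ℕ) (hQ : ∀ p ∈ P, p ≤ Q)
    (hn : n ≤ (P.card + r - 1).choose r) :
    ∃ A : Finset ℕ, A.card = n ∧ (∀ a ∈ A, 0 < a ∧ a ≤ Q ^ r) ∧
      ((Fintype.piFinset fun _ : Fin k => A).image fun f => ∏ i, f i).card ≤
        (P.card + k * r - 1).choose (k * r) := by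
  classical
  rw [← card_MM P hP] at hn
  obtain ⟨A, hA, hAn⟩ := exists_subset_card_eq hn
  refine ⟨A, hAn, fun a ha => ?_, ?_⟩
  · exact ⟨Nat.pos_of_ne_zero ((mem_MM P hP r a).1 (hA ha)).1, MM_le P hP Q r a hQ (hA ha)⟩
  · rw [← card_MM P hP]
    apply card_le_card
    intro m hm
    rw [mem_image] at hm
    obtain ⟨f, hf, rfl⟩ := hm
    rw [Fintype.mem_piFinset] at hf
    have hf' := fun i => (mem_MM P hP r (f i)).1 (hA (hf i))
    rw [mem_MM P hP]
    refine ⟨prod_ne_zero_iff.2 fun i _ => (hf' i).1, ?_, ?_⟩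
    · intro p hp
      have hpp := Nat.prime_of_mem_primeFactors hp
      obtain ⟨i, _, hi⟩ := hpp.prime.exists_mem_finset_dvd (Nat.dvd_of_mem_primeFactors hp)
      exact (hf' i).2.1 (Nat.mem_primeFactors.2 ⟨hpp, hi, (hf' i).1⟩)
    · rw [Nat.factorization_prod (fun i _ => (hf' i).1)]
      have h1 : ∀ p ∈ P, (∑ i, (f i).factorization) p = ∑ i, (f i).factorization p := by
        intro p _
        simp
      rw [sum_congr rfl h1, sum_comm]
      rw [sum_congr rfl (fun i _ => (hf' i).2.2)]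
      simp

/-- `t` primes up to `t ^ (1 + η)`. -/
theorem primes_ev (η : ℝ) (hη : 0 < η) :
    ∀ᶠ t : ℕ in atTop, ∃ P : Finset ℕ, P.card = t ∧
      ∀ p ∈ P, p.Prime ∧ (p : ℝ) ≤ (t : ℝ) ^ (1 + η) := by
  have h1 := (isLittleO_log_rpow_atTop hη).bound
    (c := 1 / (12 * (1 + η))) (by positivity)
  have h2 := tendsto_natCast_atTop_atTop (R := ℝ) |>.eventually h1
  filter_upwards [h2, eventually_ge_atTop 3] with t ht ht3
  have ht3' : (3 : ℝ) ≤ t := by exact_mod_cast ht3
  have hlt : 1 ≤ Real.log t := by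
    rw [Real.le_log_iff_exp_le (by linarith)]
    have := Real.exp_one_lt_d9
    linarith
  rw [Real.norm_of_nonneg (by linarith), Real.norm_of_nonneg (by positivity)] at ht
  have ht' : 12 * (1 + η) * Real.log t ≤ (t : ℝ) ^ η := by
    have h3 : 12 * (1 + η) * Real.log t ≤ 12 * (1 + η) * (1 / (12 * (1 + η)) * (t : ℝ) ^ η) :=
      mul_le_mul_of_nonneg_left ht (by positivity)
    have h4 : 12 * (1 + η) * (1 / (12 * (1 + η)) * (t : ℝ) ^ η) = (t : ℝ) ^ η := by
      field_simp
    rwa [h4] at h3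
  set q : ℝ := (t : ℝ) ^ (1 + η) with hq
  have hq' : q = t * (t : ℝ) ^ η := by
    rw [hq, Real.rpow_add (by linarith), Real.rpow_one]
  have htη : 12 ≤ (t : ℝ) ^ η := by nlinarith
  have hq2 : 2 ≤ q := by
    rw [hq']
    nlinarith
  set Q : ℕ := ⌊q⌋₊ with hQ
  have hQq : (Q : ℝ) ≤ q := Nat.floor_le (by linarith)
  have hqQ : q < Q + 1 := Nat.lt_floor_add_one q
  have hQ2 : 2 ≤ Q := Nat.le_floor (by exact_mod_cast hq2)
  have hQ2' : (2 : ℝ) ≤ Q := by exact_mod_cast hQ2
  have hlogq : Real.log q = (1 + η) * Real.log t := by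
    rw [hq, Real.log_rpow (by linarith)]
  have hlogQ : Real.log Q ≤ (1 + η) * Real.log t := by
    rw [← hlogq]
    exact Real.log_le_log (by linarith) hQq
  have hlogQ1 : Real.log ((Q : ℝ) + 1) ≤ 1 + (1 + η) * Real.log t := by
    calc Real.log ((Q : ℝ) + 1) ≤ Real.log (2 * q) := Real.log_le_log (by linarith) (by linarith)
      _ = Real.log 2 + Real.log q := Real.log_mul (by norm_num) (by linarith)
      _ ≤ 1 + (1 + η) * Real.log t := by
          rw [hlogq]
          have := Real.log_two_lt_d9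
          linarith
  have hlog2 : (1 : ℝ) / 2 ≤ Real.log 2 := by
    have := Real.log_two_gt_d9
    linarith
  have hcount : t ≤ Nat.primeCounting Q := by
    have h5 := Chebyshev.pi_ge Q
    have hlQ : 0 < Real.log Q := Real.log_pos (by linarith)
    have h6 : (t : ℝ) ≤ (Q * Real.log 2 - Real.log (Q + 1)) / Real.log Q := by
      rw [le_div_iff₀ hlQ]
      have h7 : (t : ℝ) * Real.log Q ≤ t * ((1 + η) * Real.log t) := by gcongr
      have h8 : (q / 2) * (1 / 2) ≤ Q * Real.log 2 := by
        apply mul_le_mul _ hlog2 (by norm_num) (by positivity)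
        linarith
      have h9 : (1 : ℝ) + (1 + η) * Real.log t ≤ 2 * ((1 + η) * Real.log t) := by nlinarith
      have h10 : 3 * ((1 + η) * Real.log t) ≤ t * ((1 + η) * Real.log t) := by
        apply mul_le_mul_of_nonneg_right ht3'
        positivity
      have h11 : t * (12 * (1 + η) * Real.log t) ≤ q := by
        rw [hq']
        gcongr
      nlinarith
    exact_mod_cast h6.trans h5
  have hcard : ((range (Q + 1)).filter Nat.Prime).card = Nat.primeCounting Q := by
    rw [Nat.primeCounting, Nat.primeCounting', Nat.count_eq_card_filter_range]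
  rw [← hcard] at hcount
  obtain ⟨P, hP, hPt⟩ := exists_subset_card_eq hcount
  refine ⟨P, hPt, fun p hp => ?_⟩
  have h12 := hP hp
  rw [mem_filter, mem_range] at h12
  refine ⟨h12.2, le_trans ?_ hQq⟩
  have : p ≤ Q := by omega
  exact_mod_cast this

theorem fact_le (r : ℕ) : (r.factorial : ℝ) ≤ ((r : ℝ) + 1) ^ (r + 1) * Real.exp (-r) := by
  induction r with
  | zero => simp
  | succ r ih =>
    rw [Nat.factorial_succ]
    push_cast
    have h1 : Real.exp 1 ≤ (((r : ℝ) + 2) / (r + 1)) ^ (r + 2) := by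
      -- (1 + 1/(r+1))^(r+2) ≥ e
      have h2 : (1 : ℝ) ≤ (r + 2) * Real.log (((r : ℝ) + 2) / (r + 1)) := by
        have h3 : Real.log (((r : ℝ) + 1) / (r + 2)) ≤ ((r : ℝ) + 1) / (r + 2) - 1 :=
          Real.log_le_sub_one_of_pos (by positivity)
        have h4 : Real.log (((r : ℝ) + 2) / (r + 1)) = -Real.log (((r : ℝ) + 1) / (r + 2)) := by
          rw [← Real.log_inv, inv_div]
        rw [h4]
        have h5 : ((r : ℝ) + 1) / (r + 2) - 1 = -(1 / (r + 2)) := by
          field_simp
          ring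
        rw [h5] at h3
        have h6 : (r + 2 : ℝ) * (1 / (r + 2)) ≤ (r + 2) * -Real.log (((r : ℝ) + 1) / (r + 2)) := by
          apply mul_le_mul_of_nonneg_left _ (by positivity)
          linarith
        have h7 : (r + 2 : ℝ) * (1 / (r + 2)) = 1 := by
          field_simp
        rwa [h7] at h6
      have h8 : (((r : ℝ) + 2) / (r + 1)) ^ (r + 2) =
          Real.exp ((r + 2) * Real.log (((r : ℝ) + 2) / (r + 1))) := by
        rw [mul_comm, Real.exp_mul, Real.exp_log (by positivity)]
        norm_cast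
      rw [h8]
      exact Real.exp_le_exp.2 h2
    have h9 : Real.exp 1 * ((r : ℝ) + 1) ^ (r + 2) ≤ ((r : ℝ) + 2) ^ (r + 2) := by
      rw [div_pow, le_div_iff₀ (by positivity)] at h1
      exact h1
    calc ((r : ℝ) + 1) * r.factorial
        ≤ ((r : ℝ) + 1) * (((r : ℝ) + 1) ^ (r + 1) * Real.exp (-r)) := by gcongr
      _ = Real.exp 1 * ((r : ℝ) + 1) ^ (r + 2) * Real.exp (-(r + 1 : ℝ)) := by
          have : Real.exp (-(r : ℝ)) = Real.exp 1 * Real.exp (-(r + 1 : ℝ)) := by
            rw [← Real.exp_add]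
            congr 1
            ring
          rw [this]
          ring
      _ ≤ ((r : ℝ) + 2) ^ (r + 2) * Real.exp (-(r + 1 : ℝ)) := by gcongr
      _ = ((r : ℝ) + 1 + 1) ^ (r + 1 + 1) * Real.exp (-(r + 1 : ℝ)) := by
          congr 2
          ring

/-- upper bound for the number of multisets -/
theorem log_choose_le (t s : ℕ) (ht : 1 ≤ t) (hs : 1 ≤ s) :
    Real.log ((t + s - 1).choose s : ℝ) ≤
      s * (1 + Real.log ((t : ℝ) + s) - Real.log s) := by
  have hs0 : (0 : ℝ) < s := by exact_mod_cast hs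
  have ht0 : (0 : ℝ) < t := by exact_mod_cast ht
  have hpos : (0 : ℝ) < ((t + s - 1).choose s : ℝ) := by
    exact_mod_cast Nat.choose_pos (by omega)
  have h1 : ((t + s - 1).choose s : ℝ) ≤ ((t + s - 1 : ℕ) : ℝ) ^ s / s.factorial :=
    Nat.choose_le_pow_div s (t + s - 1)
  have h2 : (s : ℝ) ^ s / s.factorial ≤ Real.exp s := Real.pow_div_factorial_le_exp _ hs0.le s
  have hf : (0 : ℝ) < s.factorial := by exact_mod_cast Nat.factorial_pos s
  have h3 : ((t + s - 1).choose s : ℝ) ≤ ((t : ℝ) + s) ^ s * (Real.exp s / (s : ℝ) ^ s) := by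
    refine h1.trans ?_
    rw [div_eq_mul_inv]
    apply mul_le_mul
    · apply pow_le_pow_left₀ (Nat.cast_nonneg _)
      have : ((t + s - 1 : ℕ) : ℝ) ≤ ((t + s : ℕ) : ℝ) := by
        exact_mod_cast Nat.sub_le _ _
      rwa [Nat.cast_add] at this
    · rw [div_le_iff₀ hf] at h2
      rw [inv_eq_one_div, div_le_div_iff₀ hf (by positivity)]
      linarith
    · positivity
    · positivity
  calc Real.log ((t + s - 1).choose s : ℝ)
      ≤ Real.log (((t : ℝ) + s) ^ s * (Real.exp s / (s : ℝ) ^ s)) := Real.log_le_log hpos h3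
    _ = s * (1 + Real.log ((t : ℝ) + s) - Real.log s) := by
        rw [Real.log_mul (by positivity) (by positivity),
          Real.log_div (Real.exp_pos _).ne' (by positivity), Real.log_pow, Real.log_pow,
          Real.log_exp]
        ring

/-- lower bound for the number of multisets, first form -/
theorem choose_ge (t j : ℕ) : (t : ℝ) ^ j ≤ (t + j - 1).choose j * j.factorial := by
  have h1 : t ^ j ≤ t.ascFactorial j := Nat.pow_succ_le_ascFactorial t j
  rw [Nat.ascFactorial_eq_factorial_mul_choose'] at h1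
  rw [mul_comm]
  exact_mod_cast h1

end Pool.Agent.R95.SP
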