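import Pool.Agent.R95.SP.Up

/-!
Asymptotics of the construction.
-/

namespace Pool.Agent.R95.SP
open Finset Filter

theorem log_add_le (x y : ℝ) (hx : 0 < x) (hy : 0 ≤ y) : Real.log (x + y) ≤ Real.log x + y / x := by
  have h1 : x + y = x * (1 + y / x) := by
    field_simp
  rw [h1, Real.log_mul hx.ne' (by positivity)]
  have h2 : Real.log (1 + y / x) ≤ (1 + y / x) - 1 := Real.log_le_sub_one_of_pos (by positivity)
  linarith

theorem core_upper (t r k n : ℕ) (ht : 1 ≤ t) (hr : 1 ≤ r) (hk : 1 ≤ k) (hn : 1 ≤ n)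
    (hmin : (t + (r - 1) - 1).choose (r - 1) < n) :
    Real.log ((t + k * r - 1).choose (k * r) : ℝ) ≤
      k * Real.log n - k * Real.log k * r + k * Real.log t + k * Real.log (r + 1) + k +
        (k : ℝ) ^ 2 * (r : ℝ) ^ 2 / t := by
  have ht0 : (0 : ℝ) < t := by exact_mod_cast ht
  have hr0 : (0 : ℝ) < r := by exact_mod_cast hr
  have hk0 : (0 : ℝ) < k := by exact_mod_cast hk
  have hn0 : (0 : ℝ) < n := by exact_mod_cast hn
  have h1 := log_choose_le t (k * r) ht (Nat.mul_pos hk hr)
  push_cast at h1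
  rw [Real.log_mul hk0.ne' hr0.ne'] at h1
  have h2 := log_add_le t (k * r) ht0 (by positivity)
  -- minimality
  have h3 : (t : ℝ) ^ (r - 1) ≤ n * (((r : ℝ) + 1) ^ (r + 1) * Real.exp (-r)) := by
    calc (t : ℝ) ^ (r - 1) ≤ (t + (r - 1) - 1).choose (r - 1) * (r - 1).factorial :=
          choose_ge t (r - 1)
      _ ≤ n * r.factorial := by
          have h4 : (((t + (r - 1) - 1).choose (r - 1) : ℕ) : ℝ) ≤ n := by exact_mod_cast hmin.le
          have h5 : (((r - 1).factorial : ℕ) : ℝ) ≤ r.factorial := by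
            exact_mod_cast Nat.factorial_le (Nat.sub_le _ _)
          gcongr
      _ ≤ _ := by
          have := fact_le r
          gcongr
  have h6 : ((r : ℝ) - 1) * Real.log t ≤
      Real.log n + (((r : ℝ) + 1) * Real.log (r + 1) - r) := by
    have h7 := Real.log_le_log (by positivity) h3
    rw [Real.log_pow, Real.log_mul hn0.ne' (by positivity),
      Real.log_mul (by positivity) (Real.exp_pos _).ne', Real.log_pow, Real.log_exp] at h7
    have h8 : ((r - 1 : ℕ) : ℝ) = (r : ℝ) - 1 := by
      rw [Nat.cast_sub hr, Nat.cast_one]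
    rw [h8] at h7
    push_cast at h7
    linarith
  have h9 : (r : ℝ) * Real.log (r + 1) ≤ r * Real.log r + 1 := by
    have h10 := log_add_le r 1 hr0 zero_le_one
    have h11 := mul_le_mul_of_nonneg_left h10 hr0.le
    have h12 : (r : ℝ) * (Real.log r + 1 / r) = r * Real.log r + 1 := by
      field_simp
    linarith
  have h13 : (k : ℝ) * (((r : ℝ) - 1) * Real.log t) ≤
      k * (Real.log n + (((r : ℝ) + 1) * Real.log (r + 1) - r)) :=
    mul_le_mul_of_nonneg_left h6 hk0.le
  have h14 : (k : ℝ) * (r * Real.log (r + 1)) ≤ k * (r * Real.log r + 1) :=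
    mul_le_mul_of_nonneg_left h9 hk0.le
  have h15 : (k : ℝ) * r * (1 + Real.log (t + k * r) - (Real.log k + Real.log r)) ≤
      k * r * (1 + (Real.log t + k * r / t) - (Real.log k + Real.log r)) := by
    apply mul_le_mul_of_nonneg_left _ (by positivity)
    linarith
  refine (h1.trans h15).trans ?_
  have h16 : (k : ℝ) * r * (1 + (Real.log t + k * r / t) - (Real.log k + Real.log r)) =
      k * (((r : ℝ) - 1) * Real.log t) + k * Real.log t + k * r +
        (k : ℝ) ^ 2 * (r : ℝ) ^ 2 / t - k * Real.log k * r - k * (r * Real.log r) := by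
    field_simp
    ring
  rw [h16]
  have h17 : (k : ℝ) * (Real.log n + (((r : ℝ) + 1) * Real.log (r + 1) - r)) =
      k * Real.log n + k * (r * Real.log (r + 1)) + k * Real.log (r + 1) - k * r := by ring
  rw [h17] at h13
  linarith

theorem up (k : ℕ) (hk : 1 ≤ k) (C δ : ℝ) (hC : 1 < C) (hδ : 0 < δ) :
    ∀ᶠ n : ℕ in atTop, ∃ A : Finset ℕ, A.card = n ∧
      (∀ a ∈ A, 0 < a ∧ (a : ℝ) ≤ (n : ℝ) ^ C) ∧
      (((Fintype.piFinset fun _ : Fin k => A).image fun f => ∏ i, f i).card : ℝ) ≤
        (n : ℝ) ^ ((k : ℝ) - (k * (C - 1) * Real.log k - δ) / Real.log (Real.log n)) := by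
  classical
  have hk1 : (1 : ℝ) ≤ k := by exact_mod_cast hk
  have hlk : 0 ≤ Real.log k := Real.log_nonneg hk1
  set Lam : ℝ := k * Real.log k with hLam
  have hLam0 : 0 ≤ Lam := by positivity
  set δ' : ℝ := min ((C - 1) / 2) (δ / (4 * (Lam + 1))) with hδ'
  have hδ'0 : 0 < δ' := lt_min (by linarith) (by positivity)
  have hδ'1 : δ' ≤ (C - 1) / 2 := min_le_left _ _
  have hδ'2 : Lam * δ' ≤ δ / 4 := by
    have h1 : δ' ≤ δ / (4 * (Lam + 1)) := min_le_right _ _
    have h2 : (Lam + 1) * δ' ≤ (Lam + 1) * (δ / (4 * (Lam + 1))) :=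
      mul_le_mul_of_nonneg_left h1 (by linarith)
    have h3 : (Lam + 1) * (δ / (4 * (Lam + 1))) = δ / 4 := by
      field_simp
    rw [h3] at h2
    linarith
  set a : ℝ := C - 1 - δ' with ha
  have ha0 : 0 < a := by linarith
  set s : ℝ := 1 / a with hs
  have hs0 : 0 < s := by positivity
  have has : a * s = 1 := by
    rw [hs]
    field_simp
  set η : ℝ := min (min 1 (δ' / (2 * C))) (δ / (8 * (Lam + 1) * (a ^ 2 + 1))) with hη
  have hη0 : 0 < η := lt_min (lt_min one_pos (by positivity)) (by positivity)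
  have hη1 : η ≤ 1 := (min_le_left _ _).trans (min_le_left _ _)
  have hη2 : η * C ≤ δ' / 2 := by
    have h1 : η ≤ δ' / (2 * C) := (min_le_left _ _).trans (min_le_right _ _)
    have h2 : η * C ≤ δ' / (2 * C) * C := mul_le_mul_of_nonneg_right h1 (by linarith)
    have h3 : δ' / (2 * C) * C = δ' / 2 := by
      field_simp
    rwa [h3] at h2
  have hη3 : Lam * (2 * η * a ^ 2) ≤ δ / 4 := by
    have h1 : η ≤ δ / (8 * (Lam + 1) * (a ^ 2 + 1)) := min_le_right _ _
    have h2 : (Lam + 1) * (a ^ 2 + 1) * η ≤ δ / 8 := by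
      have h3 : (Lam + 1) * (a ^ 2 + 1) * η ≤
          (Lam + 1) * (a ^ 2 + 1) * (δ / (8 * (Lam + 1) * (a ^ 2 + 1))) :=
        mul_le_mul_of_nonneg_left h1 (by positivity)
      have h4 : (Lam + 1) * (a ^ 2 + 1) * (δ / (8 * (Lam + 1) * (a ^ 2 + 1))) = δ / 8 := by
        field_simp
      rwa [h4] at h3
    have h5 : Lam * a ^ 2 * η ≤ (Lam + 1) * (a ^ 2 + 1) * η := by
      apply mul_le_mul_of_nonneg_right _ hη0.le
      exact mul_le_mul (by linarith) (by linarith) (sq_nonneg a) (by linarith)
    linarith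
  have E0 := evlin 1 1 one_pos
  have Ea := evlin 1 (2 * a) one_pos
  have Ea1 := evlin (δ' / 4) (2 * a * Real.log 2) (by positivity)
  have Ea2 := ev2 1 (δ' / 4) (2 * (1 + s) + 2) one_pos (by positivity)
  have Eb1 := ev2 η 1 ((1 + s) + 3) hη0 one_pos
  have Eb2 := evlin η 3 hη0
  have Ec0 := ev2 1 1 (1 / a) one_pos one_pos
  have Ec1 := ev2 s (δ / 8) (2 * a * (k : ℝ) ^ 2) hs0 (by positivity)
  have Ec2 := ev2 1 (δ / 8) (k * (5 + s)) one_pos (by positivity)
  have Ed := evexp 1 2 one_pos
  have hTt : Tendsto (fun u : ℝ => ⌈Real.exp ((1 + s) * u)⌉₊) atTop atTop := by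
    apply tendsto_nat_ceil_atTop.comp
    apply Real.tendsto_exp_atTop.comp
    exact tendsto_id.const_mul_atTop (by linarith)
  have Ep := hTt.eventually (primes_ev η hη0)
  filter_upwards [evnat E0, evnat Ea, evnat Ea1, evnat Ea2, evnat Eb1, evnat Eb2, evnat Ec0,
    evnat Ec1, evnat Ec2, evnat Ed, evnat Ep, eventually_ge_atTop 3] with n e0 ea ea1 ea2 eb1 eb2
    ec0 ec1 ec2 ed ep hn
  set u : ℝ := Real.log (Real.log n) with hu
  have hn0 : (3 : ℝ) ≤ n := by exact_mod_cast hn
  have hu1 : 1 ≤ u := by linarith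
  have hu0 : 0 < u := by linarith
  have hLpos : 0 < Real.log n := Real.log_pos (by linarith)
  have hLexp : Real.exp u = Real.log n := by rw [hu, Real.exp_log hLpos]
  set L : ℝ := Real.log n with hL
  have hLn : Real.exp L = n := by rw [hL, Real.exp_log (by linarith)]
  have hL2 : 2 ≤ L := by
    rw [← hLexp]
    linarith
  have hLinv : Real.exp (-(1 * u)) = L⁻¹ := by rw [one_mul, Real.exp_neg, hLexp]
  rw [hLinv] at ea2 ec0 ec2
  have huu : u ≤ u ^ 2 := by
    rw [pow_two]
    exact le_mul_of_one_le_left hu0.le hu1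
  have hLu : 0 < L / u := by positivity
  obtain ⟨P, hPt, hP⟩ := ep
  set T0 : ℝ := Real.exp ((1 + s) * u) with hT0
  set t : ℕ := ⌈T0⌉₊ with ht
  have hT0L : T0 = L * Real.exp (s * u) := by
    rw [hT0, ← hLexp, ← Real.exp_add]
    congr 1
    ring
  have hT01 : 1 ≤ T0 := Real.one_le_exp (by positivity)
  have htT : T0 ≤ t := Nat.le_ceil _
  have htT2 : (t : ℝ) ≤ 2 * T0 := by
    have : (t : ℝ) < T0 + 1 := Nat.ceil_lt_add_one (by linarith)
    linarith
  have ht0 : (0 : ℝ) < t := by linarith
  have ht1 : 1 ≤ t := by exact_mod_cast (by linarith : (1 : ℝ) ≤ t)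
  have hlogt : Real.log t ≤ (1 + s) * u + Real.log 2 := by
    calc Real.log t ≤ Real.log (2 * T0) := Real.log_le_log ht0 htT2
      _ = Real.log 2 + Real.log T0 := Real.log_mul (by norm_num) (by linarith)
      _ = (1 + s) * u + Real.log 2 := by
          rw [hT0, Real.log_exp]
          ring
  have hlog2 : Real.log 2 ≤ 1 := by
    have := Real.log_two_lt_d9
    linarith
  have hlog20 : 0 ≤ Real.log 2 := Real.log_nonneg (by norm_num)
  -- the value j
  set j : ℕ := ⌈a * L / u⌉₊ with hj
  have hjge : a * L / u ≤ j := Nat.le_ceil _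
  have haLu : a * L / u = a * (L / u) := by ring
  have hjle : (j : ℝ) ≤ a * L / u + 1 := by
    have : (j : ℝ) < a * L / u + 1 := Nat.ceil_lt_add_one (by positivity)
    linarith
  have haLu1 : 1 ≤ a * L / u := by
    -- from ec0
    have h1 : 1 / a * u ^ 2 * L⁻¹ ≤ 1 := ec0
    have h2 : u ^ 2 ≤ a * L := by
      have h3 : 1 / a * u ^ 2 * L⁻¹ = u ^ 2 / (a * L) := by
        field_simp
      rw [h3, div_le_one (by positivity)] at h1
      exact h1
    rw [le_div_iff₀ hu0, one_mul]
    exact huu.trans h2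
  have hjL : (j : ℝ) ≤ L := by
    have h1 : a * L / u ≤ L / 2 := by
      rw [div_le_iff₀ hu0]
      calc a * L = (2 * a) * (L / 2) := by ring
        _ ≤ (1 * u) * (L / 2) := mul_le_mul_of_nonneg_right ea (by linarith)
        _ = L / 2 * u := by ring
    linarith
  have hj1 : 1 ≤ j := by
    have : (1 : ℝ) ≤ j := haLu1.trans hjge
    exact_mod_cast this
  have hchoose : n ≤ (t + j - 1).choose j := by
    have h1 := choose_ge t j
    have h2 : (j.factorial : ℝ) ≤ (j : ℝ) ^ j := by exact_mod_cast Nat.factorial_le_pow j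
    have hj0 : (0 : ℝ) < j := by exact_mod_cast hj1
    have h3 : (t : ℝ) ^ j ≤ (t + j - 1).choose j * (j : ℝ) ^ j := by
      refine h1.trans ?_
      gcongr
    have h4 : ((t : ℝ) / j) ^ j ≤ (t + j - 1).choose j := by
      rw [div_pow, div_le_iff₀ (by positivity)]
      exact h3
    have h5 : Real.exp (s * u) ≤ (t : ℝ) / j := by
      rw [le_div_iff₀ hj0]
      calc Real.exp (s * u) * j ≤ Real.exp (s * u) * L := by gcongr
        _ = T0 := by
            rw [hT0L]
            ring
        _ ≤ t := htT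
    have h6 : (n : ℝ) ≤ ((t : ℝ) / j) ^ j := by
      calc (n : ℝ) = Real.exp L := hLn.symm
        _ ≤ Real.exp (j * (s * u)) := by
            apply Real.exp_le_exp.2
            have h7 : a * L / u * (s * u) ≤ j * (s * u) :=
              mul_le_mul_of_nonneg_right hjge (by positivity)
            have h8 : a * L / u * (s * u) = L := by
              calc a * L / u * (s * u) = (a * s) * L := by
                    field_simp
                _ = L := by rw [has, one_mul]
            linarith
        _ = Real.exp (s * u) ^ j := Real.exp_nat_mul _ _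
        _ ≤ ((t : ℝ) / j) ^ j := pow_le_pow_left₀ (Real.exp_pos _).le h5 _
    exact_mod_cast h6.trans h4
  have hex : ∃ r : ℕ, n ≤ (t + r - 1).choose r := ⟨j, hchoose⟩
  set r : ℕ := Nat.find hex with hrd
  have hrn : n ≤ (t + r - 1).choose r := Nat.find_spec hex
  have hrj : r ≤ j := Nat.find_min' hex hchoose
  have hr1 : 1 ≤ r := by
    rcases Nat.eq_zero_or_pos r with h0 | h0
    · rw [h0] at hrn
      simp at hrn
      omega
    · exact h0
  have hrmin : (t + (r - 1) - 1).choose (r - 1) < n := by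
    have := Nat.find_min hex (m := r - 1) (by omega)
    omega
  have hr0 : (0 : ℝ) < r := by exact_mod_cast hr1
  have hrj' : (r : ℝ) ≤ j := by exact_mod_cast hrj
  have hrL : (r : ℝ) ≤ L := hrj'.trans hjL
  have hrle : (r : ℝ) ≤ a * L / u + 1 := hrj'.trans hjle
  -- lower bound for r
  have hL1 : L ≤ r * (1 + Real.log ((t : ℝ) + r) - Real.log r) := by
    refine le_trans ?_ (log_choose_le t r ht1 hr1)
    rw [hL]
    apply Real.log_le_log (by linarith)
    exact_mod_cast hrn
  have hrt : (r : ℝ) ≤ t := by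
    have h1 : L ≤ T0 := by
      rw [hT0L]
      have : 1 ≤ Real.exp (s * u) := Real.one_le_exp (by positivity)
      exact le_mul_of_one_le_right hLpos.le this
    linarith
  have hlogr0 : 0 ≤ Real.log r := Real.log_nonneg (by exact_mod_cast hr1)
  have hlog2t : Real.log ((t : ℝ) + r) ≤ (1 + s) * u + 2 * Real.log 2 := by
    calc Real.log ((t : ℝ) + r) ≤ Real.log (2 * t) := Real.log_le_log (by linarith) (by linarith)
      _ = Real.log 2 + Real.log t := Real.log_mul (by norm_num) ht0.ne'
      _ ≤ _ := by linarith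
  have hrlow1 : L * Real.exp (-(η * u)) ≤ r := by
    have h1 : L ≤ r * ((1 + s) * u + 3) := by
      refine hL1.trans ?_
      apply mul_le_mul_of_nonneg_left _ hr0.le
      linarith
    have h2 : ((1 + s) * u + 3) * Real.exp (-(η * u)) ≤ 1 := by
      refine le_trans ?_ eb1
      apply mul_le_mul_of_nonneg_right _ (Real.exp_pos _).le
      calc (1 + s) * u + 3 ≤ (1 + s) * u ^ 2 + 3 * u ^ 2 :=
            add_le_add (mul_le_mul_of_nonneg_left huu (by linarith))
              (by linarith [hu1.trans huu])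
        _ = ((1 + s) + 3) * u ^ 2 := by ring
    calc L * Real.exp (-(η * u)) ≤ (r * ((1 + s) * u + 3)) * Real.exp (-(η * u)) := by gcongr
      _ = r * (((1 + s) * u + 3) * Real.exp (-(η * u))) := by ring
      _ ≤ r * 1 := by gcongr
      _ = r := mul_one _
  have hrlow2 : L ≤ r * ((s + 2 * η) * u) := by
    refine hL1.trans ?_
    apply mul_le_mul_of_nonneg_left _ hr0.le
    have h1 : u - η * u ≤ Real.log r := by
      have h2 := Real.log_le_log (by positivity) hrlow1
      rw [Real.log_mul (by linarith) (Real.exp_pos _).ne', Real.log_exp] at h2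
      rw [← hu] at h2
      linarith
    have h3 : (s + 2 * η) * u = (1 + s) * u - u + η * u + η * u := by ring
    rw [h3]
    linarith
  have hrlow : (a - 2 * η * a ^ 2) * (L / u) ≤ r := by
    have h1 : (a - 2 * η * a ^ 2) * (s + 2 * η) ≤ 1 := by
      have h2 : (a - 2 * η * a ^ 2) * (s + 2 * η) =
          a * s + 2 * η * a * (1 - a * s) - 4 * η ^ 2 * a ^ 2 := by ring
      rw [h2, has]
      have h3 := sq_nonneg (η * a)
      have h4 : 1 + 2 * η * a * (1 - 1) - 4 * η ^ 2 * a ^ 2 = 1 - 4 * (η * a) ^ 2 := by ring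
      rw [h4]
      linarith
    by_cases hneg : a - 2 * η * a ^ 2 ≤ 0
    · have : (a - 2 * η * a ^ 2) * (L / u) ≤ 0 := mul_nonpos_of_nonpos_of_nonneg hneg hLu.le
      linarith
    · push Not at hneg
      have h3 : (a - 2 * η * a ^ 2) * L ≤ r * u := by
        calc (a - 2 * η * a ^ 2) * L ≤ (a - 2 * η * a ^ 2) * (r * ((s + 2 * η) * u)) := by
              gcongr
          _ = ((a - 2 * η * a ^ 2) * (s + 2 * η)) * (r * u) := by ring
          _ ≤ 1 * (r * u) := by gcongr
          _ = r * u := one_mul _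
      calc (a - 2 * η * a ^ 2) * (L / u) = ((a - 2 * η * a ^ 2) * L) / u := by ring
        _ ≤ (r * u) / u := by gcongr
        _ = r := by field_simp
  -- the set
  set Q : ℕ := ⌊(t : ℝ) ^ (1 + η)⌋₊ with hQ
  obtain ⟨A, hAn, hAQ, hAk⟩ := up_fin P (fun p hp => (hP p hp).1) Q n r k
    (fun p hp => Nat.le_floor (hP p hp).2) (by rw [hPt]; exact hrn)
  rw [hPt] at hAk
  refine ⟨A, hAn, fun x hx => ⟨(hAQ x hx).1, ?_⟩, ?_⟩
  · have h1 : (x : ℝ) ≤ (Q : ℝ) ^ r := by exact_mod_cast (hAQ x hx).2
    have h2 : (Q : ℝ) ≤ (t : ℝ) ^ (1 + η) := Nat.floor_le (by positivity)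
    have h3 : (t : ℝ) ^ (1 + η) = Real.exp ((1 + η) * Real.log t) := by
      rw [mul_comm, Real.exp_mul, Real.exp_log ht0]
    have hlogt0 : 0 ≤ Real.log t := Real.log_nonneg (by exact_mod_cast ht1)
    calc (x : ℝ) ≤ (Q : ℝ) ^ r := h1
      _ ≤ ((t : ℝ) ^ (1 + η)) ^ r := pow_le_pow_left₀ (Nat.cast_nonneg _) h2 _
      _ = Real.exp (r * ((1 + η) * Real.log t)) := by rw [h3, Real.exp_nat_mul]
      _ ≤ Real.exp (C * L) := by
          apply Real.exp_le_exp.2
          -- (1+η) r log t ≤ C L
          have h4 : (r : ℝ) * ((1 + η) * Real.log t) ≤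
              (a * L / u + 1) * ((1 + η) * ((1 + s) * u + Real.log 2)) := by
            gcongr
          refine h4.trans ?_
          have h5 : (a * L / u + 1) * ((1 + η) * ((1 + s) * u + Real.log 2)) =
              (1 + η) * (a + a * s) * L + (1 + η) * (a * Real.log 2 * (L / u) +
                ((1 + s) * u + Real.log 2)) := by
            field_simp
            ring
          rw [h5, has]
          have h6 : (1 + η) * (a + 1) ≤ C - δ' / 2 := by
            have : (1 + η) * (a + 1) = C - δ' + (η * C - η * δ') := by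
              rw [ha]
              ring
            rw [this]
            have := mul_pos hη0 hδ'0
            linarith
          have h7 : a * Real.log 2 * (L / u) ≤ δ' / 8 * L := by
            have h8 : a * Real.log 2 / u ≤ δ' / 8 := by
              rw [div_le_iff₀ hu0]
              linarith
            calc a * Real.log 2 * (L / u) = a * Real.log 2 / u * L := by ring
              _ ≤ δ' / 8 * L := mul_le_mul_of_nonneg_right h8 hLpos.le
          have h9 : (1 + s) * u + Real.log 2 ≤ δ' / 8 * L := by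
            have h10 : (2 * (1 + s) + 2) * u ^ 2 ≤ δ' / 4 * L := by
              have := mul_le_mul_of_nonneg_right ea2 hLpos.le
              have h11 : (2 * (1 + s) + 2) * u ^ 2 * L⁻¹ * L = (2 * (1 + s) + 2) * u ^ 2 := by
                field_simp
              rwa [h11] at this
            have h12 : (1 + s) * u ≤ (1 + s) * u ^ 2 :=
              mul_le_mul_of_nonneg_left huu (by linarith)
            have h13 : 1 ≤ u ^ 2 := hu1.trans huu
            linarith
          have h14 : (1 + η) * (a * Real.log 2 * (L / u) + ((1 + s) * u + Real.log 2)) ≤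
              2 * (δ' / 8 * L + δ' / 8 * L) := by
            apply mul_le_mul (by linarith) (by linarith) (by positivity) (by norm_num)
          have h15 : (1 + η) * (a + 1) * L ≤ (C - δ' / 2) * L :=
            mul_le_mul_of_nonneg_right h6 hLpos.le
          linarith
      _ = (n : ℝ) ^ C := by rw [← hLn, ← Real.exp_mul, mul_comm]
  · have hXpos : (0 : ℝ) < ((t + k * r - 1).choose (k * r) : ℝ) := by
      have : 0 < k * r := Nat.mul_pos hk hr1
      exact_mod_cast Nat.choose_pos (by omega)
    have h1 : (((Fintype.piFinset fun _ : Fin k => A).image fun f => ∏ i, f i).card : ℝ) ≤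
        ((t + k * r - 1).choose (k * r) : ℝ) := by exact_mod_cast hAk
    refine h1.trans ?_
    rw [← Real.exp_log hXpos, ← hLn, ← Real.exp_mul]
    apply Real.exp_le_exp.2
    refine (core_upper t r k n ht1 hr1 hk (by omega) hrmin).trans ?_
    rw [← hL, ← hLam]
    have f1 : (k : ℝ) ^ 2 * (r : ℝ) ^ 2 / t ≤ δ / 8 * (L / u) := by
      have h2 : (r : ℝ) ≤ 2 * a * (L / u) := by
        have : a * L / u = a * (L / u) := by ring
        rw [this] at hrle haLu1
        linarith
      have h3 : (r : ℝ) / t ≤ Real.exp (-(s * u)) := by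
        rw [div_le_iff₀ ht0]
        calc (r : ℝ) ≤ L := hrL
          _ = Real.exp (-(s * u)) * T0 := by
              rw [hT0L, Real.exp_neg]
              field_simp
          _ ≤ Real.exp (-(s * u)) * t := by gcongr
      calc (k : ℝ) ^ 2 * (r : ℝ) ^ 2 / t = (k : ℝ) ^ 2 * r * (r / t) := by ring
        _ ≤ (k : ℝ) ^ 2 * (2 * a * (L / u)) * Real.exp (-(s * u)) := by gcongr
        _ = (2 * a * (k : ℝ) ^ 2 * Real.exp (-(s * u))) * (L / u) := by ring
        _ ≤ (2 * a * (k : ℝ) ^ 2 * u ^ 2 * Real.exp (-(s * u))) * (L / u) := by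
            apply mul_le_mul_of_nonneg_right _ hLu.le
            apply mul_le_mul_of_nonneg_right _ (Real.exp_pos _).le
            exact le_mul_of_one_le_right (by positivity) (hu1.trans huu)
        _ ≤ δ / 8 * (L / u) := mul_le_mul_of_nonneg_right ec1 hLu.le
    have f2 : k * Real.log t + k * Real.log (r + 1) + k ≤ δ / 8 * (L / u) := by
      have h2 : Real.log ((r : ℝ) + 1) ≤ u + Real.log 2 := by
        calc Real.log ((r : ℝ) + 1) ≤ Real.log (2 * L) :=
              Real.log_le_log (by positivity) (by linarith)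
          _ = Real.log 2 + Real.log L := Real.log_mul (by norm_num) (by linarith)
          _ = u + Real.log 2 := by rw [← hu, add_comm]
      have h3 : Real.log t + Real.log (r + 1) + 1 ≤ (5 + s) * u := by
        have : (5 + s) * u = (1 + s) * u + u + 3 * u := by ring
        rw [this]
        linarith
      calc k * Real.log t + k * Real.log (r + 1) + k
          = k * (Real.log t + Real.log (r + 1) + 1) := by ring
        _ ≤ k * ((5 + s) * u) := by gcongr
        _ = (k * (5 + s) * u ^ 2 * L⁻¹) * (L / u) := by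
            field_simp
        _ ≤ δ / 8 * (L / u) := mul_le_mul_of_nonneg_right ec2 hLu.le
    have f3 : Lam * ((a - 2 * η * a ^ 2) * (L / u)) ≤ Lam * r :=
      mul_le_mul_of_nonneg_left hrlow hLam0
    have f4 : Lam * (2 * η * a ^ 2) * (L / u) ≤ δ / 4 * (L / u) :=
      mul_le_mul_of_nonneg_right hη3 hLu.le
    have f5 : Lam * δ' * (L / u) ≤ δ / 4 * (L / u) :=
      mul_le_mul_of_nonneg_right hδ'2 hLu.le
    have f6 : L * (k - (k * (C - 1) * Real.log k - δ) / u) =
        k * L - Lam * (C - 1) * (L / u) + δ * (L / u) := by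
      rw [hLam]
      field_simp
      ring
    rw [f6]
    have f7 : Lam * ((a - 2 * η * a ^ 2) * (L / u)) = Lam * (C - 1) * (L / u) -
        Lam * δ' * (L / u) - Lam * (2 * η * a ^ 2) * (L / u) := by
      rw [ha]
      ring
    rw [f7] at f3
    have f8 : 0 < δ * (L / u) := by positivity
    linarith

end Pool.Agent.R95.SP
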